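import Pool.Agent.Helper97.CB.Spec

/-!
# Specialisation of the generic point of a family of integral conics

As `Spec.lean`, with the hypothesis that the generic conic has no component of degree one
(`v` is not in `E(u)`) instead of the discriminant.
-/

set_option autoImplicit false

namespace Pool.Agent.Helper97.CB

open MvPolynomial Pool.Agent.Helper97.GM Pool.Agent.Helper97.RU

universe u

variable {k : Type u} [Field k] {σ : Type} [Fintype σ]

/-- `1` and `v` are linearly independent over `E(u)`. -/
theorem lin_indepW {E F : Type*} [Field E] [Field F] [Algebra E F] {u v : F}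
    (hu : Transcendental E u) (hv : v ∉ IntermediateField.adjoin E {u}) (h0 h1 : Polynomial E)
    (h : Polynomial.aeval u h0 + Polynomial.aeval u h1 * v = 0) : h0 = 0 ∧ h1 = 0 := by
  have hinj := transcendental_iff_injective.1 hu
  have hmem : ∀ q : Polynomial E, Polynomial.aeval u q ∈ IntermediateField.adjoin E {u} := by
    intro q
    have hu' : u ∈ IntermediateField.adjoin E {u} := IntermediateField.mem_adjoin_simple_self E u
    have e1 : Polynomial.aeval u q =
        ((Polynomial.aeval (⟨u, hu'⟩ : IntermediateField.adjoin E {u}) q :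
          IntermediateField.adjoin E {u}) : F) := by
      have := Polynomial.aeval_algHom_apply (IntermediateField.adjoin E {u}).val
        (⟨u, hu'⟩ : IntermediateField.adjoin E {u}) q
      exact this
    rw [e1]
    exact Subtype.property _
  have hh1 : h1 = 0 := by
    by_contra hne
    apply hv
    have h1' : Polynomial.aeval u h1 ≠ 0 := by
      intro h2
      exact hne (hinj (by rw [h2, map_zero]))
    have e1 : v = -(Polynomial.aeval u h0) / Polynomial.aeval u h1 := by
      rw [eq_div_iff h1']
      linear_combination h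
    rw [e1]
    exact div_mem (neg_mem (hmem h0)) (hmem h1)
  refine ⟨?_, hh1⟩
  apply hinj
  rw [map_zero]
  rw [hh1, map_zero, zero_mul, add_zero] at h
  exact h

/-- Polynomial relations between the coefficients `ε` and the coordinates `u`, `v` of the generic
point of the generic conic hold at all points of the conics over specialisations `b` of `ε`. -/
theorem spec_zeroW {E F : Type u} [Field E] [Field F] [Algebra k E] [Algebra k F] [Algebra E F]
    [IsScalarTower k E F] {M : ℕ} {ε : Idx σ M → E} (h5 : ε (Sum.inr 5) = 1)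
    {u v : F} (hu : Transcendental E u) (hv : v ∉ IntermediateField.adjoin E {u})
    (hq : Q2 ε u v = 0)
    {P : MvPolynomial (Idx σ M ⊕ Fin 2) k}
    (hP : aeval (Sum.elim (fun l => algebraMap E F (ε l)) ![u, v]) P = 0)
    {K L : Type u} [Field K] [Field L] [Algebra k K] [Algebra k L] [Algebra K L]
    [IsScalarTower k K L] {b : Idx σ M → K} (hb : Spe (k := k) ε b) {U V : L}
    (hUV : Q2 b U V = 0) :
    aeval (Sum.elim (fun l => algebraMap K L (b l)) ![U, V]) P = 0 := by
  obtain ⟨H0, H1, hH⟩ := reduce (σ := σ) P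
  have e1 := hH E F ε u v h5 hq
  rw [hP] at e1
  obtain ⟨z0, z1⟩ := lin_indepW hu hv _ _ e1.symm
  rw [hH K L b U V (spe_one h5 hb) hUV, spe_map hb H0 z0, spe_map hb H1 z1]
  simp

/-- If `P` does not vanish at the generic point, it does not vanish at the generic points of the
conics over the specialisations at which a certain polynomial `g` does not vanish. -/
theorem spec_neW {E F : Type u} [Field E] [Field F] [Algebra k E] [Algebra k F] [Algebra E F]
    [IsScalarTower k E F] {M : ℕ} {ε : Idx σ M → E} (h5 : ε (Sum.inr 5) = 1)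
    {u v : F} (hu : Transcendental E u) (hv : v ∉ IntermediateField.adjoin E {u})
    (hq : Q2 ε u v = 0)
    {P : MvPolynomial (Idx σ M ⊕ Fin 2) k}
    (hP : aeval (Sum.elim (fun l => algebraMap E F (ε l)) ![u, v]) P ≠ 0) :
    ∃ g : MvPolynomial (Idx σ M) k, aeval ε g ≠ 0 ∧
      ∀ (K L : Type u) [Field K] [Field L] [Algebra k K] [Algebra k L] [Algebra K L]
        [IsScalarTower k K L] (b : Idx σ M → K), Spe (k := k) ε b → aeval b g ≠ 0 → ∀ U V : L,
        Transcendental K U → Q2 b U V = 0 →
        aeval (Sum.elim (fun l => algebraMap K L (b l)) ![U, V]) P ≠ 0 := by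
  obtain ⟨H0, H1, hH⟩ := reduce (σ := σ) P
  let Y : Fin 6 → Polynomial (MvPolynomial (Idx σ M) k) := fun i => Polynomial.C (X (Sum.inr i))
  let N : Polynomial (MvPolynomial (Idx σ M) k) := H0 ^ 2 - H0 * H1 * (Y 0 * Polynomial.X + Y 1) +
    H1 ^ 2 * (Y 2 * Polynomial.X ^ 2 + Y 3 * Polynomial.X + Y 4)
  have hN : ∀ (A L : Type u) [Field A] [Field L] [Algebra k A] [Algebra k L] [Algebra A L]
      [IsScalarTower k A L] (b : Idx σ M → A) (U V : L), b (Sum.inr 5) = 1 → Q2 b U V = 0 →
      Polynomial.aeval U (N.map (aeval b : MvPolynomial (Idx σ M) k →ₐ[k] A).toRingHom) =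
        (Polynomial.aeval U (H0.map (aeval b : MvPolynomial (Idx σ M) k →ₐ[k] A).toRingHom) +
          Polynomial.aeval U (H1.map (aeval b : MvPolynomial (Idx σ M) k →ₐ[k] A).toRingHom) * V) *
        (Polynomial.aeval U (H0.map (aeval b : MvPolynomial (Idx σ M) k →ₐ[k] A).toRingHom) -
          Polynomial.aeval U (H1.map (aeval b : MvPolynomial (Idx σ M) k →ₐ[k] A).toRingHom) *
            (algebraMap A L (b (Sum.inr 0)) * U + algebraMap A L (b (Sum.inr 1))) -
          Polynomial.aeval U (H1.map (aeval b : MvPolynomial (Idx σ M) k →ₐ[k] A).toRingHom) * V) := by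
    intro A L _ _ _ _ _ _ b U V hb5 hQ
    have hY : ∀ i, (Y i).map (aeval b : MvPolynomial (Idx σ M) k →ₐ[k] A).toRingHom =
        Polynomial.C (b (Sum.inr i)) := by
      intro i
      show (Polynomial.C (X (Sum.inr i))).map _ = _
      rw [Polynomial.map_C]
      congr 1
      exact aeval_X _ _
    have e1 : N.map (aeval b : MvPolynomial (Idx σ M) k →ₐ[k] A).toRingHom =
        (H0.map (aeval b : MvPolynomial (Idx σ M) k →ₐ[k] A).toRingHom) ^ 2 -
          (H0.map (aeval b : MvPolynomial (Idx σ M) k →ₐ[k] A).toRingHom) *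
          (H1.map (aeval b : MvPolynomial (Idx σ M) k →ₐ[k] A).toRingHom) *
            (Polynomial.C (b (Sum.inr 0)) * Polynomial.X + Polynomial.C (b (Sum.inr 1))) +
          (H1.map (aeval b : MvPolynomial (Idx σ M) k →ₐ[k] A).toRingHom) ^ 2 *
            (Polynomial.C (b (Sum.inr 2)) * Polynomial.X ^ 2 +
              Polynomial.C (b (Sum.inr 3)) * Polynomial.X + Polynomial.C (b (Sum.inr 4))) := by
      show (H0 ^ 2 - H0 * H1 * (Y 0 * Polynomial.X + Y 1) +
        H1 ^ 2 * (Y 2 * Polynomial.X ^ 2 + Y 3 * Polynomial.X + Y 4)).map _ = _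
      simp only [Polynomial.map_add, Polynomial.map_sub, Polynomial.map_mul, Polynomial.map_pow,
        Polynomial.map_X, hY]
    rw [e1]
    simp only [map_add, map_sub, map_mul, map_pow, Polynomial.aeval_C, Polynomial.aeval_X]
    unfold Q2 at hQ
    rw [hb5, map_one] at hQ
    linear_combination (Polynomial.aeval U
      (H1.map (aeval b : MvPolynomial (Idx σ M) k →ₐ[k] A).toRingHom)) ^ 2 * hQ
  have e1 := hH E F ε u v h5 hq
  have hNε : N.map (aeval ε : MvPolynomial (Idx σ M) k →ₐ[k] E).toRingHom ≠ 0 := by
    intro h0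
    have e2 := hN E F ε u v h5 hq
    rw [h0, map_zero, ← e1] at e2
    rcases mul_eq_zero.1 e2.symm with h | h
    · exact hP h
    · set A0 := H0.map (aeval ε : MvPolynomial (Idx σ M) k →ₐ[k] E).toRingHom with hA0
      set A1 := H1.map (aeval ε : MvPolynomial (Idx σ M) k →ₐ[k] E).toRingHom with hA1
      have e3 : Polynomial.aeval u (A0 - A1 * (Polynomial.C (ε (Sum.inr 0)) * Polynomial.X +
          Polynomial.C (ε (Sum.inr 1)))) + Polynomial.aeval u (-A1) * v = 0 := by
        simp only [map_add, map_sub, map_mul, map_neg, Polynomial.aeval_C, Polynomial.aeval_X]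
        linear_combination h
      obtain ⟨z0, z1⟩ := lin_indepW hu hv _ _ e3
      have z1' : A1 = 0 := neg_eq_zero.1 z1
      rw [z1'] at z0
      have z0' : A0 = 0 := by simpa using z0
      apply hP
      rw [e1, z0', z1']
      simp
  obtain ⟨n, hn⟩ : ∃ n, (N.map (aeval ε : MvPolynomial (Idx σ M) k →ₐ[k] E).toRingHom).coeff n ≠ 0 := by
    by_contra hcon
    push Not at hcon
    exact hNε (Polynomial.ext (by simpa using hcon))
  rw [Polynomial.coeff_map] at hn
  refine ⟨N.coeff n, hn, ?_⟩
  intro K L _ _ _ _ _ _ b hb hg U V hU hQ hz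
  have hb5 := spe_one h5 hb
  have e2 := hN K L b U V hb5 hQ
  rw [← hH K L b U V hb5 hQ, hz, zero_mul] at e2
  have e3 : N.map (aeval b : MvPolynomial (Idx σ M) k →ₐ[k] K).toRingHom = 0 := by
    apply (transcendental_iff_injective.1 hU)
    rw [e2, map_zero]
  apply hg
  have := congrArg (fun q => Polynomial.coeff q n) e3
  rw [Polynomial.coeff_map] at this
  simpa using this

end Pool.Agent.Helper97.CB
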