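import Pool.Agent.Helper97.CB.DefsW
import Pool.Agent.Helper97.RU.Data

/-!
# An integral conic is smooth, or wild, or a rational curve over an algebraic extension
-/

set_option autoImplicit false

namespace Pool.Agent.Helper97.CB

open MvPolynomial Pool.Agent.Helper97.GM Pool.Agent.Helper97.RU

universe u

variable {k : Type u} [Field k] {σ : Type} [Fintype σ]

/-- If `F = E(w, u)` with `w` algebraic over `E`, then the variety is birationally ruled. -/
theorem ruled_of {I : Ideal (MvPolynomial σ k)} {E F : Type u} [Field E] [Field F] [Algebra k E]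
    [Algebra k F] [Algebra E F] [IsScalarTower k E F] {w u : F} (ht : ∃ t : E, Transcendental k t)
    (hw : IsAlgebraic E w) (hu : Transcendental E u)
    (htop : IntermediateField.adjoin E {w, u} = ⊤) {y : σ → F}
    (hy : ∀ (f : MvPolynomial σ k) (m : ℕ), f.IsHomogeneous m → (f ∈ I ↔ aeval y f = 0))
    (hi : ∃ i, y i ≠ 0 ∧ IntermediateField.adjoin k (Set.range fun j => y j / y i) = ⊤) :
    IsRuled I := by
  obtain ⟨t, ht⟩ := ht
  obtain ⟨i, hi0, hi1⟩ := hi
  set E1 := IntermediateField.adjoin E ({w} : Set F) with hE1
  have hu1 : Transcendental E1 u := by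
    intro halg
    apply hu
    haveI : Algebra.IsAlgebraic E E1 := IntermediateField.isAlgebraic_adjoin_simple hw.isIntegral
    exact IsAlgebraic.restrictScalars E halg
  have htop1 : IntermediateField.adjoin E1 ({u} : Set F) = ⊤ := by
    have h1 := IntermediateField.adjoin_adjoin_left E ({w} : Set F) ({u} : Set F)
    rw [Set.singleton_union, htop] at h1
    apply IntermediateField.restrictScalars_injective E
    rw [h1, IntermediateField.restrictScalars_top]
  let g1 : RatFunc E1 ≃ₐ[E1] F := (RatFunc.algEquivOfTranscendental u hu1).trans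
    ((IntermediateField.equivOfEq htop1).trans IntermediateField.topEquiv)
  haveI : IsScalarTower k E1 F := IsScalarTower.of_algebraMap_eq fun r => by
    rw [IsScalarTower.algebraMap_apply k E E1, ← IsScalarTower.algebraMap_apply E E1 F,
      ← IsScalarTower.algebraMap_apply k E F]
  let g : F ≃ₐ[k] RatFunc E1 := (AlgEquiv.restrictScalars k g1).symm
  refine ⟨E1, inferInstance, inferInstance, fun j => g (y j), ⟨algebraMap E E1 t, ?_⟩, ?_, i, ?_, ?_⟩
  · rwa [transcendental_algebraMap_iff (algebraMap E E1).injective]
  · intro f m hf
    rw [hy f m hf]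
    have h2 : aeval (fun j => g (y j)) f = g (aeval y f) := by
      rw [← AlgEquiv.coe_algHom, ← AlgHom.comp_apply, comp_aeval]
    rw [h2]
    exact (map_eq_zero g).symm
  · rw [Ne, map_eq_zero]
    exact hi0
  · have h3 : (Set.range fun j => g (y j) / g (y i)) = g '' (Set.range fun j => y j / y i) := by
      rw [← Set.range_comp]
      congr 1
      funext j
      simp
    rw [h3]
    have h4 := IntermediateField.adjoin_map k (Set.range fun j => y j / y i) (g : F →ₐ[k] RatFunc E1)
    rw [hi1] at h4
    have h5 : (g '' (Set.range fun j => y j / y i)) =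
        ((g : F →ₐ[k] RatFunc E1) '' (Set.range fun j => y j / y i)) := rfl
    rw [h5, ← h4, eq_top_iff]
    rintro x -
    exact ⟨g.symm x, trivial, g.apply_symm_apply x⟩

theorem top_of {E F : Type*} [Field E] [Field F] [Algebra E F] {u v w : F}
    (htop : IntermediateField.adjoin E {u, v} = ⊤)
    (hv : v ∈ IntermediateField.adjoin E {w, u}) : IntermediateField.adjoin E {w, u} = ⊤ := by
  rw [eq_top_iff, ← htop, IntermediateField.adjoin_le_iff]
  rintro x (rfl | rfl)
  · exact IntermediateField.subset_adjoin _ _ (by simp)
  · exact hv

theorem alg_of_quad {E F : Type*} [Field E] [Field F] [Algebra E F] {w : F} (p r : E)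
    (h : w ^ 2 + algebraMap E F p * w + algebraMap E F r = 0) : IsAlgebraic E w := by
  refine ⟨Polynomial.X ^ 2 + Polynomial.C p * Polynomial.X + Polynomial.C r, ?_, ?_⟩
  · intro h0
    have h1 := congrArg (fun q : Polynomial E => q.coeff 2) h0
    simp [Polynomial.coeff_X, Polynomial.coeff_C] at h1
  · simpa using h

theorem ne_zero_of_transc {E F : Type*} [Field E] [Field F] [Algebra E F] {u : F}
    (hu : Transcendental E u) {p r : E} (hp : p ≠ 0) :
    algebraMap E F p * u + algebraMap E F r ≠ 0 := by
  intro h
  apply hu
  refine ⟨Polynomial.C p * Polynomial.X + Polynomial.C r, ?_, ?_⟩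
  · intro h0
    have h1 := congrArg (fun q : Polynomial E => q.coeff 1) h0
    simp [Polynomial.coeff_C] at h1
    exact hp h1
  · simpa using h

theorem int_conic_cases {I : Ideal (MvPolynomial σ k)} (h : IsIntConic I) :
    IsRuled I ∨ IsConicBundle I ∨ IsWild I := by
  obtain ⟨E, F, iE, iF, ikE, ikF, iEF, itow, a, b, c, d, e, u, v, y, ht, hu, heq, htop, hy, hi⟩ := h
  by_cases hv : v ∈ IntermediateField.adjoin E {u}
  · left
    refine ruled_of (w := 0) (u := u) ht (isAlgebraic_zero) hu (top_of htop ?_) hy hi
    exact IntermediateField.adjoin.mono E {u} {0, u} (by simp) hv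
  by_cases hdisc : 4 * c * e + a * b * d - c * b ^ 2 - d ^ 2 - e * a ^ 2 ≠ 0
  · right; left
    exact ⟨E, F, iE, iF, ikE, ikF, iEF, itow, a, b, c, d, e, u, v, y, ht, hdisc, hu, heq, htop, hy, hi⟩
  rw [not_not] at hdisc
  have hmem_u : ∀ w : F, u ∈ IntermediateField.adjoin E {w, u} := fun w =>
    IntermediateField.subset_adjoin _ _ (by simp)
  have hmem_w : ∀ w : F, w ∈ IntermediateField.adjoin E {w, u} := fun w =>
    IntermediateField.subset_adjoin _ _ (by simp)
  have hmem_c : ∀ (w : F) (p : E), algebraMap E F p ∈ IntermediateField.adjoin E {w, u} := fun w p =>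
    (IntermediateField.adjoin E {w, u}).algebraMap_mem p
  have hdF : 4 * algebraMap E F c * algebraMap E F e +
      algebraMap E F a * algebraMap E F b * algebraMap E F d -
      algebraMap E F c * algebraMap E F b ^ 2 - algebraMap E F d ^ 2 -
      algebraMap E F e * algebraMap E F a ^ 2 = 0 := by
    have h1 := congrArg (algebraMap E F) hdisc
    simp only [map_add, map_sub, map_mul, map_pow, map_ofNat, map_zero] at h1
    exact h1
  by_cases h2 : (2 : k) = 0
  · have h2E : (2 : E) = 0 := by
      have h1 := congrArg (algebraMap k E) h2
      rwa [map_ofNat, map_zero] at h1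
    have h2F : (2 : F) = 0 := by
      have h1 := congrArg (algebraMap k F) h2
      rwa [map_ofNat, map_zero] at h1
    by_cases ha : a = 0
    · by_cases hb : b = 0
      · right; right
        subst ha hb
        have hd : d = 0 := by
          have h3 : d ^ 2 = 0 := by linear_combination (2 * c * e) * h2E - hdisc
          exact pow_eq_zero_iff (two_ne_zero) |>.1 h3
        subst hd
        refine ⟨h2, E, F, iE, iF, ikE, ikF, iEF, itow, c, e, u, v, y, ht, hu, ?_, hv, htop, hy, hi⟩
        simpa using heq
      · left
        subst ha
        have hbF : algebraMap E F b ≠ 0 := by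
          rwa [Ne, map_eq_zero]
        set w : F := v + algebraMap E F (d / b) * u with hw
        have hq : w ^ 2 + algebraMap E F b * w + algebraMap E F e = 0 := by
          rw [hw, map_div₀]
          simp only [map_zero] at heq hdF
          field_simp
          linear_combination (algebraMap E F b ^ 2) * heq - u ^ 2 * hdF +
            (2 * algebraMap E F c * algebraMap E F e * u ^ 2 - algebraMap E F c * algebraMap E F b ^ 2 * u ^ 2 +
              algebraMap E F b * algebraMap E F d * u * v) * h2F
        refine ruled_of (w := w) (u := u) ht (alg_of_quad b e hq) hu (top_of htop ?_) hy hi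
        have h3 : v = w - algebraMap E F (d / b) * u := by rw [hw]; ring
        rw [h3]
        exact sub_mem (hmem_w w) (mul_mem (hmem_c w _) (hmem_u w))
    · left
      have haF : algebraMap E F a ≠ 0 := by
        rwa [Ne, map_eq_zero]
      have hden : algebraMap E F a * u + algebraMap E F b ≠ 0 := ne_zero_of_transc hu ha
      set w : F := (algebraMap E F a * v + algebraMap E F d) /
        (algebraMap E F a * u + algebraMap E F b) with hw
      have hq : w ^ 2 + algebraMap E F a * w + algebraMap E F c = 0 := by
        rw [hw]
        field_simp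
        linear_combination (algebraMap E F a ^ 2) * heq - hdF +
          (algebraMap E F a * v * algebraMap E F d + algebraMap E F a * algebraMap E F d * algebraMap E F b +
            algebraMap E F a * u * algebraMap E F b * algebraMap E F c -
            algebraMap E F a ^ 2 * algebraMap E F e + 2 * algebraMap E F c * algebraMap E F e) * h2F
      refine ruled_of (w := w) (u := u) ht (alg_of_quad a c hq) hu (top_of htop ?_) hy hi
      have h3 : v = (w * (algebraMap E F a * u + algebraMap E F b) - algebraMap E F d) /
          algebraMap E F a := by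
        rw [hw]
        field_simp
        ring
      rw [h3]
      exact div_mem (sub_mem (mul_mem (hmem_w w) (add_mem (mul_mem (hmem_c w _) (hmem_u w))
        (hmem_c w _))) (hmem_c w _)) (hmem_c w _)
  · left
    have h2E : (2 : E) ≠ 0 := by
      intro h0
      apply h2
      apply (algebraMap k E).injective
      rw [map_ofNat, map_zero, h0]
    have h2F : (2 : F) ≠ 0 := by
      intro h0
      apply h2
      apply (algebraMap k F).injective
      rw [map_ofNat, map_zero, h0]
    by_cases hA : a ^ 2 - 4 * c = 0
    · have hB : 2 * a * b - 4 * d = 0 := by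
        have h3 : (2 * a * b - 4 * d) ^ 2 = 0 := by
          linear_combination (-16) * hdisc + 4 * (b ^ 2 - 4 * e) * hA
        exact pow_eq_zero_iff (two_ne_zero) |>.1 h3
      have hAF : algebraMap E F a ^ 2 - 4 * algebraMap E F c = 0 := by
        have h1 := congrArg (algebraMap E F) hA
        simp only [map_sub, map_mul, map_pow, map_ofNat, map_zero] at h1
        exact h1
      have hBF : 2 * algebraMap E F a * algebraMap E F b - 4 * algebraMap E F d = 0 := by
        have h1 := congrArg (algebraMap E F) hB
        simp only [map_sub, map_mul, map_ofNat, map_zero] at h1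
        exact h1
      set w : F := 2 * v + (algebraMap E F a * u + algebraMap E F b) with hw
      have hq : w ^ 2 + algebraMap E F 0 * w + algebraMap E F (-(b ^ 2 - 4 * e)) = 0 := by
        rw [hw]
        simp only [map_zero, map_neg, map_sub, map_mul, map_pow, map_ofNat]
        linear_combination 4 * heq + u ^ 2 * hAF + u * hBF
      refine ruled_of (w := w) (u := u) ht (alg_of_quad _ _ hq) hu (top_of htop ?_) hy hi
      have h3 : v = (w - (algebraMap E F a * u + algebraMap E F b)) / algebraMap E F 2 := by
        rw [hw, map_ofNat]
        field_simp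
        ring
      rw [h3]
      exact div_mem (sub_mem (hmem_w w) (add_mem (mul_mem (hmem_c w _) (hmem_u w))
        (hmem_c w _))) (hmem_c w _)
    · have h2A : 2 * (a ^ 2 - 4 * c) ≠ 0 := mul_ne_zero h2E hA
      have hden : algebraMap E F (2 * (a ^ 2 - 4 * c)) * u + algebraMap E F (2 * a * b - 4 * d) ≠ 0 :=
        ne_zero_of_transc hu h2A
      set D : F := algebraMap E F (2 * (a ^ 2 - 4 * c)) * u + algebraMap E F (2 * a * b - 4 * d)
        with hD
      set w : F := (2 * v + (algebraMap E F a * u + algebraMap E F b)) / D with hw
      have hAF : algebraMap E F (a ^ 2 - 4 * c) ≠ 0 := by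
        rwa [Ne, map_eq_zero]
      have hkey : 4 * algebraMap E F (a ^ 2 - 4 * c) *
          (2 * v + (algebraMap E F a * u + algebraMap E F b)) ^ 2 = D ^ 2 := by
        rw [hD]
        simp only [map_sub, map_mul, map_pow, map_ofNat]
        linear_combination 16 * (algebraMap E F a ^ 2 - 4 * algebraMap E F c) * heq + 16 * hdF
      have hq : w ^ 2 + algebraMap E F 0 * w + algebraMap E F (-(1 / (4 * (a ^ 2 - 4 * c)))) = 0 := by
        have h4F : (4 : F) ≠ 0 := by
          have : (4 : F) = 2 * 2 := by norm_num
          rw [this]
          exact mul_ne_zero h2F h2F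
        rw [map_zero, map_neg, map_div₀, map_one, map_mul, map_ofNat, zero_mul, add_zero,
          ← sub_eq_add_neg, sub_eq_zero, hw, div_pow, div_eq_div_iff (pow_ne_zero 2 hden)
            (mul_ne_zero h4F hAF)]
        linear_combination hkey
      refine ruled_of (w := w) (u := u) ht (alg_of_quad _ _ hq) hu (top_of htop ?_) hy hi
      have h3 : v = (w * D - (algebraMap E F a * u + algebraMap E F b)) / algebraMap E F 2 := by
        rw [hw, map_ofNat, div_mul_cancel₀ _ hden]
        field_simp
        ring
      have hDm : D ∈ IntermediateField.adjoin E {w, u} :=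
        add_mem (mul_mem (hmem_c w _) (hmem_u w)) (hmem_c w _)
      rw [h3]
      exact div_mem (sub_mem (mul_mem (hmem_w w) hDm) (add_mem (mul_mem (hmem_c w _) (hmem_u w))
        (hmem_c w _))) (hmem_c w _)

end Pool.Agent.Helper97.CB
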