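import Pool.Agent.Helper97.CB.Defs

/-!
# Integral conics, wild conics: definitions
-/

set_option autoImplicit false

namespace Pool.Agent.Helper97.CB

open MvPolynomial Pool.Agent.Helper97.GM Pool.Agent.Helper97.RU

universe u

variable {k : Type u} [Field k] {σ : Type} [Fintype σ]

/-- `X` has a dominant rational map to a variety of positive dimension (with function field `E`) whose
generic fibre (with function field `F`) is an integral conic `v² + (a u + b) v + c u² + d u + e = 0`,
or a rational curve; `y` is the generic point of `X` in terms of this fibration. -/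
def IsIntConic (I : Ideal (MvPolynomial σ k)) : Prop :=
  ∃ (E F : Type u) (_ : Field E) (_ : Field F) (_ : Algebra k E) (_ : Algebra k F)
    (_ : Algebra E F) (_ : IsScalarTower k E F) (a b c d e : E) (u v : F) (y : σ → F),
    (∃ t : E, Transcendental k t) ∧
    Transcendental E u ∧
    v ^ 2 + (algebraMap E F a * u + algebraMap E F b) * v + algebraMap E F c * u ^ 2 +
      algebraMap E F d * u + algebraMap E F e = 0 ∧
    IntermediateField.adjoin E {u, v} = ⊤ ∧
    (∀ (f : MvPolynomial σ k) (m : ℕ), f.IsHomogeneous m → (f ∈ I ↔ aeval y f = 0)) ∧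
    ∃ i, y i ≠ 0 ∧ IntermediateField.adjoin k (Set.range fun j => y j / y i) = ⊤

/-- The wild case: the characteristic is `2` and the generic fibre is `v² + c u² + e = 0`, integral
(`v` is not in `E(u)`). -/
def IsWild (I : Ideal (MvPolynomial σ k)) : Prop :=
  (2 : k) = 0 ∧
  ∃ (E F : Type u) (_ : Field E) (_ : Field F) (_ : Algebra k E) (_ : Algebra k F)
    (_ : Algebra E F) (_ : IsScalarTower k E F) (c e : E) (u v : F) (y : σ → F),
    (∃ t : E, Transcendental k t) ∧
    Transcendental E u ∧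
    v ^ 2 + algebraMap E F c * u ^ 2 + algebraMap E F e = 0 ∧
    v ∉ IntermediateField.adjoin E {u} ∧
    IntermediateField.adjoin E {u, v} = ⊤ ∧
    (∀ (f : MvPolynomial σ k) (m : ℕ), f.IsHomogeneous m → (f ∈ I ↔ aeval y f = 0)) ∧
    ∃ i, y i ≠ 0 ∧ IntermediateField.adjoin k (Set.range fun j => y j / y i) = ⊤

/-- The wild conics over the point `b` of the base in terms of a rational map `φ` on `X`
and coordinates `τ₁ / τ₀`, `τ₂ / τ₀` on the conics. -/
def WildAt (I : Ideal (MvPolynomial σ k)) {M : ℕ} (φ : Idx σ M → MvPolynomial σ k)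
    (τ₀ τ₁ τ₂ : MvPolynomial σ k) {K : Type u} [Field K] [Algebra k K] (b : Idx σ M → K) : Prop :=
  b (Sum.inr 5) ≠ 0 ∧ b (Sum.inr 0) = 0 ∧ b (Sum.inr 1) = 0 ∧ b (Sum.inr 3) = 0 ∧
    ∀ (L : Type u) [Field L] [Algebra k L] [Algebra K L] [IsScalarTower k K L] (U V : L),
      Transcendental K U → Q2 b U V = 0 →
      On I (Psi2 b U V) ∧ aeval (Psi2 b U V) τ₁ = U * aeval (Psi2 b U V) τ₀ ∧
      aeval (Psi2 b U V) τ₂ = V * aeval (Psi2 b U V) τ₀ ∧ aeval (Psi2 b U V) τ₀ ≠ 0 ∧
      (∀ l l', aeval (Psi2 b U V) (φ l) * algebraMap K L (b l') =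
        aeval (Psi2 b U V) (φ l') * algebraMap K L (b l)) ∧
      ∃ l, aeval (Psi2 b U V) (φ l) ≠ 0

end Pool.Agent.Helper97.CB
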