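import Mathlib

/-!
# Parametrisation of a smooth conic with a rational point
-/

set_option autoImplicit false

namespace Pool.Agent.Helper97.CB

section aux

variable {K : Type*} [Field K]

/-- a polynomial of degree at most 2 with a nonzero coefficient does not vanish at `X` -/
private theorem quad_ne {p q r : K} (h : p ≠ 0 ∨ q ≠ 0 ∨ r ≠ 0) :
    algebraMap K (RatFunc K) p * RatFunc.X ^ 2 + algebraMap K (RatFunc K) q * RatFunc.X +
      algebraMap K (RatFunc K) r ≠ 0 := by
  intro h0
  have h1 : algebraMap (Polynomial K) (RatFunc K)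
      (Polynomial.C p * Polynomial.X ^ 2 + Polynomial.C q * Polynomial.X + Polynomial.C r) =
      algebraMap (Polynomial K) (RatFunc K) 0 := by
    rw [map_zero, ← h0]
    simp only [map_add, map_mul, map_pow, RatFunc.algebraMap_X, RatFunc.algebraMap_C,
      RatFunc.algebraMap_eq_C]
  have h2 := RatFunc.algebraMap_injective K h1
  have e2 := congrArg (fun f => Polynomial.coeff f 2) h2
  have e1 := congrArg (fun f => Polynomial.coeff f 1) h2
  have e0 := congrArg (fun f => Polynomial.coeff f 0) h2
  simp [Polynomial.coeff_X, Polynomial.coeff_C] at e2 e1 e0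
  rcases h with h | h | h
  · exact h e2
  · exact h e1
  · exact h e0

private theorem adjoin_top {U V : RatFunc K}
    (h : (RatFunc.X : RatFunc K) ∈ IntermediateField.adjoin K {U, V}) :
    IntermediateField.adjoin K {U, V} = ⊤ := by
  rw [eq_top_iff, ← RatFunc.adjoin_X]
  exact IntermediateField.adjoin_simple_le_iff.2 h

end aux

theorem conic_par {K : Type*} [Field K] {a b c d e : K}
    (hdisc : 4 * c * e + a * b * d - c * b ^ 2 - d ^ 2 - e * a ^ 2 ≠ 0) {x y z : K}
    (hne : x ≠ 0 ∨ y ≠ 0 ∨ z ≠ 0)
    (hq : y ^ 2 + (a * x + b * z) * y + c * x ^ 2 + d * x * z + e * z ^ 2 = 0) :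
    ∃ U V : RatFunc K, V ^ 2 + (algebraMap K (RatFunc K) a * U + algebraMap K (RatFunc K) b) * V +
        algebraMap K (RatFunc K) c * U ^ 2 + algebraMap K (RatFunc K) d * U +
        algebraMap K (RatFunc K) e = 0 ∧
      Transcendental K U ∧ IntermediateField.adjoin K {U, V} = ⊤ := by
  by_cases hz : z = 0
  · -- a point at infinity
    subst hz
    have hx : x ≠ 0 := by
      intro hx
      subst hx
      have hy : y ^ 2 = 0 := by linear_combination hq
      have hy0 : y = 0 := pow_eq_zero_iff (two_ne_zero) |>.1 hy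
      rcases hne with h | h | h
      · exact h rfl
      · exact h hy0
      · exact h rfl
    obtain ⟨t0, ht0⟩ : ∃ t0, t0 = y / x := ⟨_, rfl⟩
    have hyx : y = t0 * x := by rw [ht0]; field_simp
    have hT : t0 ^ 2 + a * t0 + c = 0 := by
      have h1 : x ^ 2 * (t0 ^ 2 + a * t0 + c) = 0 := by
        rw [hyx] at hq
        linear_combination hq
      exact (mul_eq_zero.1 h1).resolve_left (pow_ne_zero _ hx)
    have hden : (2 * t0 + a) ≠ 0 ∨ (b * t0 + d) ≠ 0 := by
      by_contra hcon
      push Not at hcon
      obtain ⟨h1, h2⟩ := hcon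
      apply hdisc
      have ea : a = -2 * t0 := by linear_combination h1
      have ed : d = -b * t0 := by linear_combination h2
      have ec : c = t0 ^ 2 := by
        have : c = -t0 ^ 2 - a * t0 := by linear_combination hT
        rw [this, ea]; ring
      rw [ec, ed, ea]
      ring
    set A := algebraMap K (RatFunc K) with hA
    have hD : A (2 * t0 + a) * RatFunc.X + A (b * t0 + d) ≠ 0 := by
      have := quad_ne (K := K) (p := 0) (q := 2 * t0 + a) (r := b * t0 + d) (Or.inr hden)
      rwa [map_zero, zero_mul, zero_add] at this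
    set D : RatFunc K := A (2 * t0 + a) * RatFunc.X + A (b * t0 + d) with hDd
    set U : RatFunc K := -(RatFunc.X ^ 2 + A b * RatFunc.X + A e) / D with hU
    have hUD : U * D = -(RatFunc.X ^ 2 + A b * RatFunc.X + A e) := by
      rw [hU]; field_simp
    refine ⟨U, A t0 * U + RatFunc.X, ?_, ?_, ?_⟩
    · have hT' : A t0 ^ 2 + A a * A t0 + A c = 0 := by
        rw [← map_pow, ← map_mul, ← map_add, ← map_add, hT, map_zero]
      have hD' : D = (2 * A t0 + A a) * RatFunc.X + (A b * A t0 + A d) := by
        rw [hDd]
        simp only [map_add, map_mul, map_ofNat]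
      rw [hD'] at hUD
      linear_combination U ^ 2 * hT' + hUD
    · apply RatFunc.transcendental_of_ne_C
      rintro ⟨κ, hκ⟩
      rw [hκ] at hUD
      have := quad_ne (K := K) (p := 1) (q := b + κ * (2 * t0 + a)) (r := e + κ * (b * t0 + d))
        (Or.inl one_ne_zero)
      apply this
      have hC : (RatFunc.C κ : RatFunc K) = A κ := by rw [hA, RatFunc.algebraMap_eq_C]
      rw [hC, hDd] at hUD
      simp only [map_add, map_mul, map_ofNat, map_one] at hUD ⊢
      linear_combination hUD
    · apply adjoin_top
      have h1 : U ∈ IntermediateField.adjoin K {U, A t0 * U + RatFunc.X} :=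
        IntermediateField.subset_adjoin _ _ (by simp)
      have h2 : A t0 * U + RatFunc.X ∈ IntermediateField.adjoin K {U, A t0 * U + RatFunc.X} :=
        IntermediateField.subset_adjoin _ _ (by simp)
      have h3 := sub_mem h2 (mul_mem ((IntermediateField.adjoin K
        {U, A t0 * U + RatFunc.X}).algebraMap_mem t0) h1)
      have h4 : A t0 * U + RatFunc.X - algebraMap K (RatFunc K) t0 * U = RatFunc.X := by
        rw [← hA]; ring
      rwa [h4] at h3
  · -- an affine point
    obtain ⟨x0, hx0⟩ : ∃ x0, x0 = x / z := ⟨_, rfl⟩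
    obtain ⟨y0, hy0⟩ : ∃ y0, y0 = y / z := ⟨_, rfl⟩
    have hxz : x = x0 * z := by rw [hx0]; field_simp
    have hyz : y = y0 * z := by rw [hy0]; field_simp
    have hq0 : y0 ^ 2 + (a * x0 + b) * y0 + c * x0 ^ 2 + d * x0 + e = 0 := by
      have h1 : z ^ 2 * (y0 ^ 2 + (a * x0 + b) * y0 + c * x0 ^ 2 + d * x0 + e) = 0 := by
        rw [hxz, hyz] at hq
        linear_combination hq
      exact (mul_eq_zero.1 h1).resolve_left (pow_ne_zero _ hz)
    have hne2 : (2 * y0 + a * x0 + b) ≠ 0 ∨ (a * y0 + 2 * c * x0 + d) ≠ 0 := by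
      by_contra hcon
      push Not at hcon
      obtain ⟨h1, h2⟩ := hcon
      apply hdisc
      have hid : 4 * c * e + a * b * d - c * b ^ 2 - d ^ 2 - e * a ^ 2 =
          a * (2 * y0 + a * x0 + b) * (a * y0 + 2 * c * x0 + d) -
          c * (2 * y0 + a * x0 + b) ^ 2 - (a * y0 + 2 * c * x0 + d) ^ 2 +
          (4 * c - a ^ 2) * (y0 ^ 2 + (a * x0 + b) * y0 + c * x0 ^ 2 + d * x0 + e) := by
        ring
      rw [hid, h1, h2, hq0]
      ring
    set A := algebraMap K (RatFunc K) with hA
    set al : K := 2 * y0 + a * x0 + b with hal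
    set be : K := a * y0 + 2 * c * x0 + d with hbe
    have hD : RatFunc.X ^ 2 + A a * RatFunc.X + A c ≠ 0 := by
      have := quad_ne (K := K) (p := 1) (q := a) (r := c) (Or.inl one_ne_zero)
      rwa [map_one, one_mul] at this
    set D : RatFunc K := RatFunc.X ^ 2 + A a * RatFunc.X + A c with hDd
    have hN : A al * RatFunc.X + A be ≠ 0 := by
      have := quad_ne (K := K) (p := 0) (q := al) (r := be) (Or.inr hne2)
      rwa [map_zero, zero_mul, zero_add] at this
    set s : RatFunc K := -(A al * RatFunc.X + A be) / D with hs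
    have hsD : s * D = -(A al * RatFunc.X + A be) := by
      rw [hs]; field_simp
    have hs0 : s ≠ 0 := by
      intro h0
      rw [h0, zero_mul] at hsD
      exact hN (neg_eq_zero.1 hsD.symm)
    refine ⟨A x0 + s, A y0 + RatFunc.X * s, ?_, ?_, ?_⟩
    · have hq' : A y0 ^ 2 + (A a * A x0 + A b) * A y0 + A c * A x0 ^ 2 + A d * A x0 + A e = 0 := by
        rw [← map_pow, ← map_pow, ← map_mul, ← map_mul, ← map_mul, ← map_add, ← map_mul, ← map_add,
          ← map_add, ← map_add, ← map_add, hq0, map_zero]
      have hal' : A al = 2 * A y0 + A a * A x0 + A b := by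
        rw [hal]; simp only [map_add, map_mul, map_ofNat]
      have hbe' : A be = A a * A y0 + 2 * A c * A x0 + A d := by
        rw [hbe]; simp only [map_add, map_mul, map_ofNat]
      rw [hal', hbe', hDd] at hsD
      linear_combination hq' + s * hsD
    · apply RatFunc.transcendental_of_ne_C
      rintro ⟨κ, hκ⟩
      have hC : (RatFunc.C κ : RatFunc K) = A κ := by rw [hA, RatFunc.algebraMap_eq_C]
      rw [hC] at hκ
      have hsκ : s = A (κ - x0) := by
        rw [map_sub, ← hκ]; ring
      have hne3 : (κ - x0) ≠ 0 := by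
        intro h0
        rw [h0, map_zero] at hsκ
        exact hs0 hsκ
      have := quad_ne (K := K) (p := κ - x0) (q := (κ - x0) * a + al) (r := (κ - x0) * c + be)
        (Or.inl hne3)
      apply this
      rw [hsκ, hDd] at hsD
      rw [map_add A ((κ - x0) * a), map_add A ((κ - x0) * c), map_mul, map_mul]
      linear_combination hsD
    · apply adjoin_top
      set E := IntermediateField.adjoin K {A x0 + s, A y0 + RatFunc.X * s} with hE
      have h1 : A x0 + s ∈ E := IntermediateField.subset_adjoin _ _ (by simp)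
      have h2 : A y0 + RatFunc.X * s ∈ E := IntermediateField.subset_adjoin _ _ (by simp)
      have h3 : s ∈ E := by
        have := sub_mem h1 (E.algebraMap_mem x0)
        have h4 : A x0 + s - algebraMap K (RatFunc K) x0 = s := by rw [← hA]; ring
        rwa [h4] at this
      have h5 : RatFunc.X * s ∈ E := by
        have := sub_mem h2 (E.algebraMap_mem y0)
        have h4 : A y0 + RatFunc.X * s - algebraMap K (RatFunc K) y0 = RatFunc.X * s := by
          rw [← hA]; ring
        rwa [h4] at this
      have h6 := div_mem h5 h3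
      rwa [mul_div_assoc, div_self hs0, mul_one] at h6

end Pool.Agent.Helper97.CB
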