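import Pool.Agent.Helper97.CB.Defs
import Pool.Agent.Helper97.CB.ConicPar
import Pool.Agent.Helper97.CB.TsenConic
import Pool.Agent.Helper97.GM.SurfCurve
import Mathlib.FieldTheory.RatFunc.Luroth

/-!
# The rational surface over a rational curve in the base of a conic bundle
-/

set_option autoImplicit false

namespace Pool.Agent.Helper97.CB

open MvPolynomial Pool.Agent.Helper97.GM Pool.Agent.Helper97.RU

universe u

variable {k : Type u} [Field k] {σ : Type} [Fintype σ]

private theorem aeval_mem' {L : Type*} [Field L] [Algebra k L] (A : IntermediateField k L) {τ : Type*}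
    (z : τ → L) (hz : ∀ j, z j ∈ A) (f : MvPolynomial τ k) : aeval z f ∈ A := by
  have h : (aeval z : MvPolynomial τ k →ₐ[k] L) = A.val.comp (aeval fun j => (⟨z j, hz j⟩ : A)) := by
    apply MvPolynomial.algHom_ext
    intro j
    simp
  rw [h]
  exact SetLike.coe_mem _

private theorem form_eq' {τ : Type} [Fintype τ] {L : Type*} [Field L] [Algebra k L] {y : τ → L}
    {i : τ} (hi : y i ≠ 0) {f : MvPolynomial τ k} {m : ℕ} (hf : f.IsHomogeneous m) :
    aeval y f = y i ^ m * aeval (fun j => y j / y i) f := by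
  rw [← aeval_smul_form (y i) (fun j => y j / y i) hf]
  have e : (fun j => y i * (y j / y i)) = y := funext fun j => mul_div_cancel₀ _ hi
  rw [e]

private theorem ratio_mem' {L : Type*} [Field L] [Algebra k L] {y : σ → L} {i : σ} (hi : y i ≠ 0)
    {f g : MvPolynomial σ k} {m : ℕ} (hf : f.IsHomogeneous m) (hg : g.IsHomogeneous m) :
    aeval y f / aeval y g ∈ IntermediateField.adjoin k (Set.range fun j => y j / y i) := by
  rw [form_eq' hi hf, form_eq' hi hg, mul_div_mul_left _ _ (pow_ne_zero _ hi)]
  have h1 : ∀ j, y j / y i ∈ IntermediateField.adjoin k (Set.range fun j => y j / y i) :=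
    fun j => IntermediateField.subset_adjoin _ _ ⟨j, rfl⟩
  exact div_mem (aeval_mem' _ _ h1 f) (aeval_mem' _ _ h1 g)

section embed

variable (k)

private noncomputable def uu (j : Fin 2) : FractionRing (MvPolynomial (Fin 2) k) :=
  algebraMap (MvPolynomial (Fin 2) k) _ (X j)

private theorem transc0 : Transcendental k (uu k 0) :=
  (transcendental_algebraMap_iff (IsFractionRing.injective (MvPolynomial (Fin 2) k)
    (FractionRing (MvPolynomial (Fin 2) k)))).2 (MvPolynomial.transcendental_X k 0)

/-- `k(t) → k(u₀, u₁)` -/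
private noncomputable def i0 : RatFunc k →ₐ[k] FractionRing (MvPolynomial (Fin 2) k) :=
  (IntermediateField.val _).comp (RatFunc.algEquivOfTranscendental (uu k 0) (transc0 k)).toAlgHom

private theorem i0_alg (p : Polynomial k) :
    i0 k (algebraMap (Polynomial k) (RatFunc k) p) = Polynomial.aeval (uu k 0) p := by
  show ((RatFunc.algEquivOfTranscendental (uu k 0) (transc0 k) (algebraMap _ _ p) : _) :
    FractionRing (MvPolynomial (Fin 2) k)) = _
  rw [RatFunc.algEquivOfTranscendental_apply]
  simp

/-- `k(t)[x] → k(u₀, u₁)` -/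
private noncomputable def i1 :
    Polynomial (RatFunc k) →+* FractionRing (MvPolynomial (Fin 2) k) :=
  Polynomial.eval₂RingHom (i0 k).toRingHom (uu k 1)

private theorem i1_inj : Function.Injective (i1 k) := by
  rw [injective_iff_map_eq_zero]
  intro p hp
  have h1 := IsLocalization.integerNormalization_eval₂_eq_zero (nonZeroDivisors (Polynomial k))
    (i0 k).toRingHom p (x := uu k 1) hp
  rw [← IsLocalization.integerNormalization_eq_zero_iff (M := nonZeroDivisors (Polynomial k)) le_rfl]
  set q := IsLocalization.integerNormalization (nonZeroDivisors (Polynomial k)) p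
  -- the left inverse
  let ρ : Polynomial (Polynomial k) →+* MvPolynomial (Fin 2) k :=
    Polynomial.eval₂RingHom (Polynomial.aeval (X 0)).toRingHom (X 1)
  let ρ' : MvPolynomial (Fin 2) k →+* Polynomial (Polynomial k) :=
    (aeval (![Polynomial.C Polynomial.X, Polynomial.X] : Fin 2 → Polynomial (Polynomial k)) :
      MvPolynomial (Fin 2) k →ₐ[k] Polynomial (Polynomial k)).toRingHom
  have h2 : ρ'.comp ρ = RingHom.id _ := by
    apply Polynomial.ringHom_ext'
    · apply Polynomial.ringHom_ext'
      · ext a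
        simp [ρ, ρ']
      · simp [ρ, ρ']
    · simp [ρ, ρ']
  have h3 : (algebraMap (MvPolynomial (Fin 2) k) (FractionRing (MvPolynomial (Fin 2) k))).comp ρ =
      Polynomial.eval₂RingHom ((i0 k).toRingHom.comp (algebraMap (Polynomial k) (RatFunc k))) (uu k 1) := by
    apply Polynomial.ringHom_ext'
    · apply Polynomial.ringHom_ext'
      · ext a
        have h4 := i0_alg k (Polynomial.C a)
        simp only [Polynomial.aeval_C] at h4
        simp only [ρ, RingHom.comp_apply, Polynomial.coe_eval₂RingHom, Polynomial.eval₂_C]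
        refine Eq.trans ?_ h4.symm
        simp [IsScalarTower.algebraMap_apply k (MvPolynomial (Fin 2) k)
          (FractionRing (MvPolynomial (Fin 2) k))]
      · have h4 := i0_alg k Polynomial.X
        simp only [Polynomial.aeval_X] at h4
        simp only [ρ, RingHom.comp_apply, Polynomial.coe_eval₂RingHom, Polynomial.eval₂_C]
        refine Eq.trans ?_ h4.symm
        simp [uu]
    · simp [ρ, uu]
  have h5 : ρ q = 0 := by
    apply IsFractionRing.injective (MvPolynomial (Fin 2) k) (FractionRing (MvPolynomial (Fin 2) k))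
    rw [map_zero, ← RingHom.comp_apply, h3]
    exact h1
  have h6 : ρ' (ρ q) = q := by
    rw [← RingHom.comp_apply, h2]
    rfl
  rw [← h6, h5, map_zero]

/-- `k(t)(x) → k(u₀, u₁)` -/
private noncomputable def i2 :
    RatFunc (RatFunc k) →+* FractionRing (MvPolynomial (Fin 2) k) :=
  IsFractionRing.lift (A := Polynomial (RatFunc k)) (i1_inj k)

private theorem i2_alg (p : Polynomial (RatFunc k)) :
    i2 k (algebraMap (Polynomial (RatFunc k)) (RatFunc (RatFunc k)) p) = i1 k p :=
  IsFractionRing.lift_algebraMap (i1_inj k) p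

private theorem i2_K (r : RatFunc k) :
    i2 k (algebraMap (RatFunc k) (RatFunc (RatFunc k)) r) = i0 k r := by
  rw [IsScalarTower.algebraMap_apply (RatFunc k) (Polynomial (RatFunc k)) (RatFunc (RatFunc k)),
    i2_alg, Polynomial.algebraMap_apply]
  simp [i1]

private theorem i2_X : i2 k RatFunc.X = uu k 1 := by
  rw [← RatFunc.algebraMap_X, i2_alg]
  simp [i1]

private theorem i2_aeval {τ : Type*} (y : τ → RatFunc (RatFunc k)) (f : MvPolynomial τ k) :
    i2 k (aeval y f) = aeval (fun j => i2 k (y j)) f := by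
  have h : (i2 k).comp (aeval y : MvPolynomial τ k →ₐ[k] _).toRingHom =
      (aeval (fun j => i2 k (y j)) : MvPolynomial τ k →ₐ[k] _).toRingHom := by
    apply MvPolynomial.ringHom_ext
    · intro a
      have h1 : (i0 k) (algebraMap k (RatFunc k) a) = algebraMap k _ a := (i0 k).commutes a
      simp only [RingHom.comp_apply, AlgHom.toRingHom_eq_coe, RingHom.coe_coe, MvPolynomial.aeval_C]
      rw [IsScalarTower.algebraMap_apply k (RatFunc k) (RatFunc (RatFunc k)), i2_K]
      exact h1
    · intro j
      simp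
  exact DFunLike.congr_fun h f

end embed

/-- Lueroth: a nonconstant rational curve has a parametrisation which generates `k(t)`. -/
theorem luroth_gen {τ : Type} [Fintype τ] {b : τ → Polynomial k} (hbc : ¬ Const b) :
    ∃ (b' : τ → RatFunc k) (l0 : τ), b' l0 = 1 ∧ IntermediateField.adjoin k (Set.range b') = ⊤ ∧
      ∀ (f : MvPolynomial τ k) (m : ℕ), f.IsHomogeneous m → (aeval b' f = 0 ↔ aeval b f = 0) := by
  classical
  obtain ⟨l0, hl0⟩ : ∃ l, b l ≠ 0 := by
    by_contra hcon
    push Not at hcon
    exact hbc ⟨0, fun _ => 0, fun l => by rw [hcon l]; simp⟩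
  set β : τ → RatFunc k := fun l => algebraMap (Polynomial k) (RatFunc k) (b l) with hβ
  have hβ0 : β l0 ≠ 0 := by
    intro h
    exact hl0 ((IsFractionRing.injective (Polynomial k) (RatFunc k)) (by rw [map_zero]; exact h))
  have hβa : ∀ f : MvPolynomial τ k, aeval β f =
      algebraMap (Polynomial k) (RatFunc k) (aeval b f) := by
    intro f
    rw [hβ]
    exact (MvPolynomial.aeval_algebraMap_apply (RatFunc k) b f)
  set E : IntermediateField k (RatFunc k) :=
    IntermediateField.adjoin k (Set.range fun l => β l / β l0) with hE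
  have hmem : ∀ l, β l / β l0 ∈ E := fun l => IntermediateField.subset_adjoin _ _ ⟨l, rfl⟩
  have hE0 : E ≠ ⊥ := by
    intro h
    apply hbc
    have h1 : ∀ l, ∃ c : k, algebraMap k (RatFunc k) c = β l / β l0 := by
      intro l
      have h2 := hmem l
      rw [h, IntermediateField.mem_bot] at h2
      exact h2
    choose c hc using h1
    refine ⟨b l0, c, fun l => ?_⟩
    apply IsFractionRing.injective (Polynomial k) (RatFunc k)
    have h3 := hc l
    rw [eq_div_iff hβ0] at h3
    rw [map_mul, mul_comm]
    refine Eq.trans h3.symm ?_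
    congr 1
  let e := RatFunc.Luroth.algEquiv hE0
  set b' : τ → RatFunc k := fun l => e.symm ⟨β l / β l0, hmem l⟩ with hb'
  have hb'a : ∀ f : MvPolynomial τ k, ((e (aeval b' f) : E) : RatFunc k) =
      aeval (fun l => β l / β l0) f := by
    intro f
    have h1 : (E.val.comp e.toAlgHom).comp (aeval b') = aeval (fun l => β l / β l0) := by
      apply MvPolynomial.algHom_ext
      intro l
      simp [hb']
    exact DFunLike.congr_fun h1 f
  refine ⟨b', l0, ?_, ?_, ?_⟩
  · rw [hb']
    simp only
    have h1 : (⟨β l0 / β l0, hmem l0⟩ : E) = 1 := Subtype.ext (div_self hβ0)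
    rw [h1, map_one]
  · rw [eq_top_iff]
    intro r _
    have h1 : E ≤ (IntermediateField.adjoin k (Set.range b')).map (E.val.comp e.toAlgHom) := by
      refine IntermediateField.adjoin_le_iff.2 ?_
      rintro _ ⟨l, rfl⟩
      refine ⟨b' l, IntermediateField.subset_adjoin _ _ ⟨l, rfl⟩, ?_⟩
      simp [hb']
    obtain ⟨r', hr', hr''⟩ := h1 (SetLike.coe_mem (e r))
    have h2 : e r' = e r := Subtype.ext hr''
    rw [← e.injective h2]
    exact hr'
  · intro f m hf
    have h1 := form_eq' hβ0 hf
    rw [hβa] at h1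
    constructor
    · intro h2
      have h3 := hb'a f
      rw [h2, map_zero] at h3
      rw [← h3] at h1
      apply IsFractionRing.injective (Polynomial k) (RatFunc k)
      rw [h1, map_zero]
      simp
    · intro h2
      rw [h2, map_zero] at h1
      have h3 := (mul_eq_zero.1 h1.symm).resolve_left (pow_ne_zero _ hβ0)
      have h4 := hb'a f
      rw [h3] at h4
      have h5 : e (aeval b' f) = 0 := Subtype.ext h4
      exact (map_eq_zero_iff e e.injective).1 h5

theorem lift2 [IsAlgClosed k] {I : Ideal (MvPolynomial σ k)} {M d d' δ : ℕ}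
    {φ : Idx σ M → MvPolynomial σ k} {τ₀ τ₁ τ₂ : MvPolynomial σ k} {D : MvPolynomial (Idx σ M) k}
    (hφ : ∀ l, (φ l).IsHomogeneous d) (hτ₀ : τ₀.IsHomogeneous d') (hτ₁ : τ₁.IsHomogeneous d')
    (hτ₂ : τ₂.IsHomogeneous d') (hD : D.IsHomogeneous δ)
    (hK : ∀ (K : Type u) [Field K] [Algebra k K] (b : Idx σ M → K), InB I φ b → aeval b D ≠ 0 →
      ConicAt I φ τ₀ τ₁ τ₂ b)
    {b : Idx σ M → Polynomial k} (hb : InB I φ b) (hbD : aeval b D ≠ 0) (hbc : ¬ Const b) :
    HasSurface I := by
  classical
  obtain ⟨b', l0, hb1, hgen, hform⟩ := luroth_gen (τ := Idx σ M) hbc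
  have hin : InB I φ b' := by
    intro g m hg hgI
    exact (hform g m hg).2 (hb g m hg hgI)
  have hD' : aeval b' D ≠ 0 := fun h => hbD ((hform D δ hD).1 h)
  obtain ⟨h5, hdisc, hL⟩ := hK (RatFunc k) b' hin hD'
  -- the point of the conic
  set c5 := b' (Sum.inr 5) with hc5
  set a' := b' (Sum.inr 0) / c5 with ha'
  set e1 := b' (Sum.inr 1) / c5 with he1
  set e2 := b' (Sum.inr 2) / c5 with he2
  set e3 := b' (Sum.inr 3) / c5 with he3
  set e4 := b' (Sum.inr 4) / c5 with he4
  have hdisc' : 4 * e2 * e4 + a' * e1 * e3 - e2 * e1 ^ 2 - e3 ^ 2 - e4 * a' ^ 2 ≠ 0 := by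
    intro h
    apply hdisc
    have h6 : disc2 b' = c5 ^ 3 * (4 * e2 * e4 + a' * e1 * e3 - e2 * e1 ^ 2 - e3 ^ 2 - e4 * a' ^ 2) := by
      rw [ha', he1, he2, he3, he4]
      simp only [disc2, ← hc5]
      field_simp
    rw [h6, h, mul_zero]
  obtain ⟨x, y, z, hxyz, hq⟩ := tsen_conic (k := k) ![e2, a', 1, e3, e1, e4]
  have hq' : y ^ 2 + (a' * x + e1 * z) * y + e2 * x ^ 2 + e3 * x * z + e4 * z ^ 2 = 0 := by
    rw [← hq]
    simp only [Matrix.cons_val]
    ring
  obtain ⟨U, V, hUV, hU, hUVtop⟩ := conic_par hdisc' hxyz hq'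
  have hQ : Q2 b' U V = 0 := by
    have hmap : ∀ r : RatFunc k, algebraMap (RatFunc k) (RatFunc (RatFunc k)) (c5 * (r / c5)) =
        algebraMap (RatFunc k) (RatFunc (RatFunc k)) r := by
      intro r
      rw [mul_div_cancel₀ _ h5]
    have h6 : Q2 b' U V = algebraMap (RatFunc k) (RatFunc (RatFunc k)) c5 *
        (V ^ 2 + (algebraMap (RatFunc k) (RatFunc (RatFunc k)) a' * U +
          algebraMap (RatFunc k) (RatFunc (RatFunc k)) e1) * V +
        algebraMap (RatFunc k) (RatFunc (RatFunc k)) e2 * U ^ 2 +
        algebraMap (RatFunc k) (RatFunc (RatFunc k)) e3 * U +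
        algebraMap (RatFunc k) (RatFunc (RatFunc k)) e4) := by
      unfold Q2
      rw [← hmap (b' (Sum.inr 0)), ← hmap (b' (Sum.inr 1)), ← hmap (b' (Sum.inr 2)),
        ← hmap (b' (Sum.inr 3)), ← hmap (b' (Sum.inr 4))]
      simp only [map_mul, ← ha', ← he1, ← he2, ← he3, ← he4, ← hc5]
      ring
    rw [h6, hUV, mul_zero]
  obtain ⟨r1, r2, r2', r3, r4, l1, r5⟩ := hL (RatFunc (RatFunc k)) U V hU hQ
  set Ψ : σ → RatFunc (RatFunc k) := Psi2 b' U V with hΨ
  -- the surface
  refine ⟨fun j => i2 k (Ψ j), ?_, ?_⟩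
  · intro f hf
    rw [← i2_aeval, r1 f hf, map_zero]
  · have hi : ∃ i, Ψ i ≠ 0 := by
      by_contra hcon
      push Not at hcon
      have h0 : Ψ = 0 := funext hcon
      rw [h0] at r2 r3
      have h1 : ∀ f : MvPolynomial σ k, (aeval (0 : σ → RatFunc (RatFunc k)) f) =
          algebraMap (RatFunc k) (RatFunc (RatFunc k)) (algebraMap k (RatFunc k) (constantCoeff f)) := by
        intro f
        rw [MvPolynomial.aeval_zero, ← IsScalarTower.algebraMap_apply]
      rw [h1, h1] at r2
      rw [h1] at r3
      apply hU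
      have h2 : U = algebraMap (RatFunc k) (RatFunc (RatFunc k))
          (algebraMap k (RatFunc k) (constantCoeff τ₁) / algebraMap k (RatFunc k) (constantCoeff τ₀)) := by
        rw [map_div₀, eq_div_iff r3]
        exact r2.symm
      rw [h2]
      exact isAlgebraic_algebraMap _
    obtain ⟨i, hi⟩ := hi
    have hinj : Function.Injective (i2 k) := (i2 k).injective
    have hyi : i2 k (Ψ i) ≠ 0 := fun h => hi (hinj (by rw [h, map_zero]))
    refine ⟨i, hyi, ?_⟩
    set y : σ → FractionRing (MvPolynomial (Fin 2) k) := fun j => i2 k (Ψ j) with hy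
    set A := IntermediateField.adjoin k (Set.range fun j => y j / y i) with hA
    have hye : ∀ f : MvPolynomial σ k, i2 k (aeval Ψ f) = aeval y f := fun f => i2_aeval k _ f
    have hτ0 : aeval y τ₀ ≠ 0 := by
      rw [← hye]
      exact fun h => r3 (hinj (by rw [h, map_zero]))
    have hUA : i2 k U ∈ A := by
      have h1 := congrArg (i2 k) r2
      rw [map_mul, hye, hye, ← div_eq_iff hτ0] at h1
      rw [← h1]
      exact ratio_mem' hyi hτ₁ hτ₀
    have hVA : i2 k V ∈ A := by
      have h1 := congrArg (i2 k) r2'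
      rw [map_mul, hye, hye, ← div_eq_iff hτ0] at h1
      rw [← h1]
      exact ratio_mem' hyi hτ₂ hτ₀
    -- the field `k(t)`
    have hrel : ∀ l l', aeval y (φ l) * i0 k (b' l') = aeval y (φ l') * i0 k (b' l) := by
      intro l l'
      have h1 := congrArg (i2 k) (r4 l l')
      rw [map_mul, map_mul, hye, hye, i2_K, i2_K] at h1
      exact h1
    have hl1 : aeval y (φ l1) ≠ 0 := by
      rw [← hye]
      exact fun h => r5 (hinj (by rw [h, map_zero]))
    have hl2 : aeval y (φ l0) ≠ 0 := by
      intro h
      have h1 := hrel l1 l0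
      rw [h, zero_mul, hb1, map_one, mul_one] at h1
      exact hl1 h1
    have hbA : ∀ l, i0 k (b' l) ∈ A := by
      intro l
      have h1 := hrel l0 l
      rw [hb1, map_one, mul_one] at h1
      have h2 : i0 k (b' l) = aeval y (φ l) / aeval y (φ l0) := by
        rw [eq_div_iff hl2, mul_comm]
        exact h1
      rw [h2]
      exact ratio_mem' hyi (hφ l) (hφ l0)
    have hall : ∀ r : RatFunc k, i0 k r ∈ A := by
      intro r
      have h1 : IntermediateField.adjoin k (Set.range b') ≤ A.comap (i0 k) := by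
        rw [IntermediateField.adjoin_le_iff]
        rintro _ ⟨l, rfl⟩
        exact hbA l
      rw [hgen] at h1
      exact h1 (IntermediateField.mem_top)
    have hevery : ∀ w : RatFunc (RatFunc k), i2 k w ∈ A := by
      intro w
      have hw : w ∈ IntermediateField.adjoin (RatFunc k) {U, V} := by
        rw [hUVtop]
        exact IntermediateField.mem_top
      refine IntermediateField.adjoin_induction (RatFunc k) (s := {U, V})
        (p := fun x _ => i2 k x ∈ A) ?_ ?_ ?_ ?_ ?_ hw
      · rintro x (rfl | rfl)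
        · exact hUA
        · exact hVA
      · intro r
        rw [i2_K]
        exact hall r
      · intro x y _ _ h1 h2
        rw [map_add]
        exact add_mem h1 h2
      · intro x _ h1
        rw [map_inv₀]
        exact inv_mem h1
      · intro x y _ _ h1 h2
        rw [map_mul]
        exact mul_mem h1 h2
    refine top_of_vars fun m => ?_
    fin_cases m
    · have h1 := hall (algebraMap (Polynomial k) (RatFunc k) Polynomial.X)
      rw [i0_alg, Polynomial.aeval_X] at h1
      exact h1
    · have h1 := hevery RatFunc.X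
      rw [i2_X] at h1
      exact h1

end Pool.Agent.Helper97.CB
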