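import Mathlib

/-!
# Wild conics over `k(t)` are rational
-/

set_option autoImplicit false

namespace Pool.Agent.Helper97.CB

universe u

namespace Wild

section embed

variable (k : Type u) [Field k]

open MvPolynomial

private noncomputable def uu (j : Fin 2) : FractionRing (MvPolynomial (Fin 2) k) :=
  algebraMap (MvPolynomial (Fin 2) k) _ (X j)

private theorem transc0 : Transcendental k (uu k 0) :=
  (transcendental_algebraMap_iff (IsFractionRing.injective (MvPolynomial (Fin 2) k)
    (FractionRing (MvPolynomial (Fin 2) k)))).2 (MvPolynomial.transcendental_X k 0)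

/-- `k(t) → k(u₀, u₁)` -/
private noncomputable def i0 : RatFunc k →ₐ[k] FractionRing (MvPolynomial (Fin 2) k) :=
  (IntermediateField.val _).comp (RatFunc.algEquivOfTranscendental (uu k 0) (transc0 k)).toAlgHom

private theorem i0_alg (p : Polynomial k) :
    i0 k (algebraMap (Polynomial k) (RatFunc k) p) = Polynomial.aeval (uu k 0) p := by
  show ((RatFunc.algEquivOfTranscendental (uu k 0) (transc0 k) (algebraMap _ _ p) : _) :
    FractionRing (MvPolynomial (Fin 2) k)) = _
  rw [RatFunc.algEquivOfTranscendental_apply]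
  simp

/-- `k(t)[x] → k(u₀, u₁)` -/
private noncomputable def i1 :
    Polynomial (RatFunc k) →+* FractionRing (MvPolynomial (Fin 2) k) :=
  Polynomial.eval₂RingHom (i0 k).toRingHom (uu k 1)

private theorem i1_inj : Function.Injective (i1 k) := by
  rw [injective_iff_map_eq_zero]
  intro p hp
  have h1 := IsLocalization.integerNormalization_eval₂_eq_zero (nonZeroDivisors (Polynomial k))
    (i0 k).toRingHom p (x := uu k 1) hp
  rw [← IsLocalization.integerNormalization_eq_zero_iff (M := nonZeroDivisors (Polynomial k)) le_rfl]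
  set q := IsLocalization.integerNormalization (nonZeroDivisors (Polynomial k)) p
  -- the left inverse
  let ρ : Polynomial (Polynomial k) →+* MvPolynomial (Fin 2) k :=
    Polynomial.eval₂RingHom (Polynomial.aeval (X 0)).toRingHom (X 1)
  let ρ' : MvPolynomial (Fin 2) k →+* Polynomial (Polynomial k) :=
    (aeval (![Polynomial.C Polynomial.X, Polynomial.X] : Fin 2 → Polynomial (Polynomial k)) :
      MvPolynomial (Fin 2) k →ₐ[k] Polynomial (Polynomial k)).toRingHom
  have h2 : ρ'.comp ρ = RingHom.id _ := by
    apply Polynomial.ringHom_ext'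
    · apply Polynomial.ringHom_ext'
      · ext a
        simp [ρ, ρ']
      · simp [ρ, ρ']
    · simp [ρ, ρ']
  have h3 : (algebraMap (MvPolynomial (Fin 2) k) (FractionRing (MvPolynomial (Fin 2) k))).comp ρ =
      Polynomial.eval₂RingHom ((i0 k).toRingHom.comp (algebraMap (Polynomial k) (RatFunc k))) (uu k 1) := by
    apply Polynomial.ringHom_ext'
    · apply Polynomial.ringHom_ext'
      · ext a
        have h4 := i0_alg k (Polynomial.C a)
        simp only [Polynomial.aeval_C] at h4
        simp only [ρ, RingHom.comp_apply, Polynomial.coe_eval₂RingHom, Polynomial.eval₂_C]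
        refine Eq.trans ?_ h4.symm
        simp [IsScalarTower.algebraMap_apply k (MvPolynomial (Fin 2) k)
          (FractionRing (MvPolynomial (Fin 2) k))]
      · have h4 := i0_alg k Polynomial.X
        simp only [Polynomial.aeval_X] at h4
        simp only [ρ, RingHom.comp_apply, Polynomial.coe_eval₂RingHom, Polynomial.eval₂_C]
        refine Eq.trans ?_ h4.symm
        simp [uu]
    · simp [ρ, uu]
  have h5 : ρ q = 0 := by
    apply IsFractionRing.injective (MvPolynomial (Fin 2) k) (FractionRing (MvPolynomial (Fin 2) k))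
    rw [map_zero, ← RingHom.comp_apply, h3]
    exact h1
  have h6 : ρ' (ρ q) = q := by
    rw [← RingHom.comp_apply, h2]
    rfl
  rw [← h6, h5, map_zero]

/-- `k(t)(x) → k(u₀, u₁)` -/
private noncomputable def i2 :
    RatFunc (RatFunc k) →+* FractionRing (MvPolynomial (Fin 2) k) :=
  IsFractionRing.lift (A := Polynomial (RatFunc k)) (i1_inj k)

private theorem i2_alg (p : Polynomial (RatFunc k)) :
    i2 k (algebraMap (Polynomial (RatFunc k)) (RatFunc (RatFunc k)) p) = i1 k p :=
  IsFractionRing.lift_algebraMap (i1_inj k) p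

private theorem i2_K (r : RatFunc k) :
    i2 k (algebraMap (RatFunc k) (RatFunc (RatFunc k)) r) = i0 k r := by
  rw [IsScalarTower.algebraMap_apply (RatFunc k) (Polynomial (RatFunc k)) (RatFunc (RatFunc k)),
    i2_alg, Polynomial.algebraMap_apply]
  simp [i1]

private theorem i2_X : i2 k RatFunc.X = uu k 1 := by
  rw [← RatFunc.algebraMap_X, i2_alg]
  simp [i1]

private theorem i2_k (a : k) : i2 k (algebraMap k (RatFunc (RatFunc k)) a) =
    algebraMap k (FractionRing (MvPolynomial (Fin 2) k)) a := by
  rw [IsScalarTower.algebraMap_apply k (RatFunc k) (RatFunc (RatFunc k)), i2_K]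
  exact (i0 k).commutes a

private theorem i2_surj : Function.Surjective (i2 k) := by
  intro z
  have h0 : ∀ f : MvPolynomial (Fin 2) k,
      algebraMap (MvPolynomial (Fin 2) k) (FractionRing (MvPolynomial (Fin 2) k)) f ∈
        (i2 k).fieldRange := by
    intro f
    induction f using MvPolynomial.induction_on with
    | C a =>
      refine ⟨algebraMap k (RatFunc (RatFunc k)) a, ?_⟩
      rw [i2_k]
      exact IsScalarTower.algebraMap_apply k (MvPolynomial (Fin 2) k) _ a
    | add p q hp hq =>
      rw [map_add]
      exact add_mem hp hq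
    | mul_X p i hp =>
      rw [map_mul]
      refine mul_mem hp ?_
      fin_cases i
      · refine ⟨algebraMap (RatFunc k) (RatFunc (RatFunc k)) RatFunc.X, ?_⟩
        rw [i2_K, ← RatFunc.algebraMap_X, i0_alg, Polynomial.aeval_X]
        rfl
      · exact ⟨RatFunc.X, i2_X k⟩
  obtain ⟨f, g, hg, rfl⟩ := IsFractionRing.div_surjective (A := MvPolynomial (Fin 2) k) z
  exact div_mem (h0 f) (h0 g)

/-- `k(t)(x) ≃ k(u₀, u₁)` -/
private noncomputable def e2 :
    RatFunc (RatFunc k) ≃ₐ[k] FractionRing (MvPolynomial (Fin 2) k) :=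
  AlgEquiv.ofBijective { i2 k with commutes' := i2_k k } ⟨(i2 k).injective, i2_surj k⟩

end embed

section algebra

variable {k : Type u} [Field k]

private theorem dec_poly [IsAlgClosed k] (h2 : (2 : k) = 0) (p : Polynomial k) :
    ∃ a b : Polynomial k, p = a ^ 2 + Polynomial.X * b ^ 2 := by
  have h2' : (2 : Polynomial k) = 0 := by
    rw [← map_ofNat (Polynomial.C : k →+* Polynomial k) 2, h2, map_zero]
  induction p using Polynomial.induction_on' with
  | add p q hp hq =>
    obtain ⟨a, b, rfl⟩ := hp
    obtain ⟨c, d, rfl⟩ := hq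
    refine ⟨a + c, b + d, ?_⟩
    linear_combination (-(a * c) - Polynomial.X * b * d) * h2'
  | monomial n r =>
    obtain ⟨s, hs⟩ := IsAlgClosed.exists_pow_nat_eq r (n := 2) (by norm_num)
    obtain ⟨m, rfl | rfl⟩ := n.even_or_odd'
    · refine ⟨Polynomial.monomial m s, 0, ?_⟩
      rw [Polynomial.monomial_pow, hs, mul_comm m 2]
      simp
    · refine ⟨0, Polynomial.monomial m s, ?_⟩
      rw [Polynomial.monomial_pow, hs, mul_comm m 2, Polynomial.X_mul_monomial]
      simp

private theorem dec [IsAlgClosed k] (h2 : (2 : k) = 0) (r : RatFunc k) :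
    ∃ a b : RatFunc k, r = a ^ 2 + RatFunc.X * b ^ 2 := by
  obtain ⟨f, g, hg, rfl⟩ := IsFractionRing.div_surjective (A := Polynomial k) r
  have hg0 : algebraMap (Polynomial k) (RatFunc k) g ≠ 0 :=
    IsFractionRing.to_map_ne_zero_of_mem_nonZeroDivisors hg
  obtain ⟨a, b, hab⟩ := dec_poly h2 (f * g)
  have h := congrArg (algebraMap (Polynomial k) (RatFunc k)) hab
  rw [map_mul, map_add, map_mul, map_pow, map_pow, RatFunc.algebraMap_X] at h
  refine ⟨algebraMap _ _ a / algebraMap _ _ g, algebraMap _ _ b / algebraMap _ _ g, ?_⟩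
  rw [div_pow, div_pow, mul_div_assoc', ← add_div, ← h]
  field_simp

/-- the algebra of the second case -/
private theorem wild_core {K L : Type*} [Field K] [Field L] [Algebra K L] (h2 : (2 : L) = 0)
    (x : K) (T U : L) (hT : T ^ 2 = algebraMap K L x) (hU : Transcendental K U)
    (hgen : IntermediateField.adjoin K {T, U} = ⊤) (c₀ c₁ e₀ e₁ : K) (hne : ¬ (c₁ = 0 ∧ e₁ = 0)) :
    ∃ V : L, V ^ 2 + algebraMap K L (c₀ ^ 2 + x * c₁ ^ 2) * U ^ 2 +
        algebraMap K L (e₀ ^ 2 + x * e₁ ^ 2) = 0 ∧
      IntermediateField.adjoin K {U, V} = ⊤ := by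
  have hW : algebraMap K L c₁ * U + algebraMap K L e₁ ≠ 0 := by
    intro h
    apply hU
    refine ⟨Polynomial.C c₁ * Polynomial.X + Polynomial.C e₁, ?_, by simpa using h⟩
    intro h0
    apply hne
    constructor
    · have := congrArg (fun p => Polynomial.coeff p 1) h0
      simpa using this
    · have := congrArg (fun p => Polynomial.coeff p 0) h0
      simpa using this
  set V : L := algebraMap K L c₀ * U + algebraMap K L e₀ +
    T * (algebraMap K L c₁ * U + algebraMap K L e₁) with hV
  refine ⟨V, ?_, ?_⟩
  · simp only [map_add, map_mul, map_pow]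
    rw [← hT, hV]
    linear_combination ((algebraMap K L c₀ * U + algebraMap K L e₀) ^ 2 +
      T ^ 2 * (algebraMap K L c₁ * U + algebraMap K L e₁) ^ 2 +
      (algebraMap K L c₀ * U + algebraMap K L e₀) * T *
        (algebraMap K L c₁ * U + algebraMap K L e₁) -
      algebraMap K L c₀ * U * algebraMap K L e₀ -
      T ^ 2 * algebraMap K L c₁ * U * algebraMap K L e₁) * h2
  · rw [eq_top_iff, ← hgen, IntermediateField.adjoin_le_iff]
    have hUA : U ∈ IntermediateField.adjoin K {U, V} :=
      IntermediateField.subset_adjoin _ _ (by simp)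
    have hVA : V ∈ IntermediateField.adjoin K {U, V} :=
      IntermediateField.subset_adjoin _ _ (by simp)
    have hKA : ∀ r : K, algebraMap K L r ∈ IntermediateField.adjoin K {U, V} :=
      fun r => IntermediateField.algebraMap_mem _ r
    intro y hy
    rcases hy with rfl | rfl
    · have : y = (V - (algebraMap K L c₀ * U + algebraMap K L e₀)) /
          (algebraMap K L c₁ * U + algebraMap K L e₁) := by
        rw [eq_div_iff hW, hV]
        ring
      rw [this]
      exact div_mem (sub_mem hVA (add_mem (mul_mem (hKA _) hUA) (hKA _)))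
        (add_mem (mul_mem (hKA _) hUA) (hKA _))
    · exact hUA

private theorem expand_nzd (k : Type u) [Field k] : nonZeroDivisors (Polynomial k) ≤
    Submonoid.comap (Polynomial.expand k 2) (nonZeroDivisors (Polynomial k)) := by
  intro p hp
  rw [Submonoid.mem_comap, mem_nonZeroDivisors_iff_ne_zero]
  intro h
  rw [mem_nonZeroDivisors_iff_ne_zero] at hp
  exact hp ((Polynomial.expand_eq_zero (by norm_num)).1 h)

/-- `t ↦ t²` -/
private noncomputable def th (k : Type u) [Field k] : RatFunc k →ₐ[k] RatFunc k :=
  RatFunc.mapAlgHom (Polynomial.expand k 2) (expand_nzd k)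

private theorem th_alg (p : Polynomial k) : th k (algebraMap (Polynomial k) (RatFunc k) p) =
    algebraMap (Polynomial k) (RatFunc k) (Polynomial.expand k 2 p) := by
  show RatFunc.map (Polynomial.expand k 2) (expand_nzd k) _ = _
  have := RatFunc.map_apply_div (Polynomial.expand k 2) (expand_nzd k) p 1
  simpa using this

private theorem th_X : th k RatFunc.X = (RatFunc.X : RatFunc k) ^ 2 := by
  rw [← RatFunc.algebraMap_X, th_alg, Polynomial.expand_X, map_pow]

/-- the usual embedding of the coefficients -/
private noncomputable def std (k : Type u) [Field k] : RatFunc k →+* RatFunc (RatFunc k) :=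
  algebraMap (RatFunc k) (RatFunc (RatFunc k))

/-- the algebra structure through `t ↦ t²` -/
@[reducible] private noncomputable def algW (k : Type u) [Field k] :
    Algebra (RatFunc k) (RatFunc (RatFunc k)) :=
  ((std k).comp (th k).toRingHom).toAlgebra

private theorem algW_apply (r : RatFunc k) :
    @algebraMap (RatFunc k) (RatFunc (RatFunc k)) _ _ (algW k) r = std k (th k r) := rfl

private theorem std_k (a : k) : std k (algebraMap k (RatFunc k) a) =
    algebraMap k (RatFunc (RatFunc k)) a :=
  (IsScalarTower.algebraMap_apply k (RatFunc k) (RatFunc (RatFunc k)) a).symm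

private theorem towW : @IsScalarTower k (RatFunc k) (RatFunc (RatFunc k)) _
    (algW k).toSMul _ := by
  refine @IsScalarTower.of_algebraMap_eq k (RatFunc k) (RatFunc (RatFunc k)) _ _ _ _ (algW k) _ ?_
  intro a
  rw [algW_apply, (th k).commutes, std_k]

private theorem transX : Transcendental (RatFunc k) (RatFunc.X : RatFunc (RatFunc k)) := by
  rw [← RatFunc.algebraMap_X]
  exact (transcendental_algebraMap_iff (IsFractionRing.injective (Polynomial (RatFunc k))
    (RatFunc (RatFunc k)))).2 (Polynomial.transcendental_X _)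

private theorem transW : @Transcendental (RatFunc k) (RatFunc (RatFunc k)) _ _ (algW k)
    RatFunc.X := by
  rintro ⟨p, hp, h0⟩
  apply transX (k := k)
  refine ⟨p.map (th k).toRingHom, ?_, ?_⟩
  · rwa [Ne, Polynomial.map_eq_zero_iff (th k).toRingHom.injective]
  · rw [Polynomial.aeval_def, Polynomial.eval₂_map]
    exact h0

private theorem sqW : (std k RatFunc.X) ^ 2 =
    @algebraMap (RatFunc k) (RatFunc (RatFunc k)) _ _ (algW k) RatFunc.X := by
  rw [algW_apply, ← map_pow, th_X]

private theorem genW : @IntermediateField.adjoin (RatFunc k) _ (RatFunc (RatFunc k)) _ (algW k)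
    {std k RatFunc.X, RatFunc.X} = ⊤ := by
  have key : ∀ A : Subfield (RatFunc (RatFunc k)), (∀ a : k, algebraMap k _ a ∈ A) →
      std k RatFunc.X ∈ A → RatFunc.X ∈ A → ∀ w, w ∈ A := by
    intro A hk hT hU
    have h1 : ∀ p : Polynomial k, std k (algebraMap (Polynomial k) (RatFunc k) p) ∈ A := by
      intro p
      induction p using Polynomial.induction_on' with
      | add p q hp hq =>
        rw [map_add, map_add]
        exact add_mem hp hq
      | monomial n r =>
        rw [← Polynomial.C_mul_X_pow_eq_monomial, map_mul, map_mul, map_pow, map_pow,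
          RatFunc.algebraMap_X]
        refine mul_mem ?_ (pow_mem hT n)
        rw [RatFunc.algebraMap_C]
        have := hk r
        rw [← std_k] at this
        exact this
    have h2 : ∀ r : RatFunc k, std k r ∈ A := by
      intro r
      obtain ⟨f, g, hg, rfl⟩ := IsFractionRing.div_surjective (A := Polynomial k) r
      rw [map_div₀]
      exact div_mem (h1 f) (h1 g)
    have h3 : ∀ p : Polynomial (RatFunc k),
        algebraMap (Polynomial (RatFunc k)) (RatFunc (RatFunc k)) p ∈ A := by
      intro p
      induction p using Polynomial.induction_on' with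
      | add p q hp hq =>
        rw [map_add]
        exact add_mem hp hq
      | monomial n r =>
        rw [← Polynomial.C_mul_X_pow_eq_monomial, map_mul, map_pow, RatFunc.algebraMap_X]
        refine mul_mem ?_ (pow_mem hU n)
        rw [RatFunc.algebraMap_C]
        exact h2 r
    intro w
    obtain ⟨f, g, hg, rfl⟩ := IsFractionRing.div_surjective (A := Polynomial (RatFunc k)) w
    exact div_mem (h3 f) (h3 g)
  rw [eq_top_iff]
  intro w _
  refine key (@IntermediateField.toSubfield (RatFunc k) (RatFunc (RatFunc k)) _ _ (algW k)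
    (@IntermediateField.adjoin (RatFunc k) _ (RatFunc (RatFunc k)) _ (algW k)
    {std k RatFunc.X, RatFunc.X})) ?_ ?_ ?_ w
  · intro a
    have h := @IntermediateField.algebraMap_mem (RatFunc k) (RatFunc (RatFunc k)) _ _ (algW k)
      (@IntermediateField.adjoin (RatFunc k) _ (RatFunc (RatFunc k)) _ (algW k)
        {std k RatFunc.X, RatFunc.X}) (algebraMap k (RatFunc k) a)
    rw [algW_apply, (th k).commutes, std_k] at h
    exact h
  · exact @IntermediateField.subset_adjoin (RatFunc k) _ (RatFunc (RatFunc k)) _ (algW k) _ _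
      (Set.mem_insert _ _)
  · exact @IntermediateField.subset_adjoin (RatFunc k) _ (RatFunc (RatFunc k)) _ (algW k) _ _
      (Set.mem_insert_of_mem _ rfl)

end algebra

end Wild

/-- In characteristic `2` the curve `V² + c U² + e = 0` over `k(t)` is dominated by (a component of
itself, which is) a rational surface over `k`. -/
theorem wild_par {k : Type u} [Field k] [IsAlgClosed k] (h2 : (2 : k) = 0) (c e : RatFunc k) :
    ∃ (L : Type u) (_ : Field L) (_ : Algebra k L) (_ : Algebra (RatFunc k) L)
      (_ : IsScalarTower k (RatFunc k) L) (U V : L),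
      V ^ 2 + algebraMap (RatFunc k) L c * U ^ 2 + algebraMap (RatFunc k) L e = 0 ∧
      Transcendental (RatFunc k) U ∧ IntermediateField.adjoin (RatFunc k) {U, V} = ⊤ ∧
      Nonempty (L ≃ₐ[k] FractionRing (MvPolynomial (Fin 2) k)) := by
  obtain ⟨c₀, c₁, rfl⟩ := Wild.dec h2 c
  obtain ⟨e₀, e₁, rfl⟩ := Wild.dec h2 e
  have h2K : (2 : RatFunc k) = 0 := by
    rw [← map_ofNat (algebraMap k (RatFunc k)) 2, h2, map_zero]
  have h2L : (2 : RatFunc (RatFunc k)) = 0 := by
    rw [← map_ofNat (algebraMap (RatFunc k) (RatFunc (RatFunc k))) 2, h2K, map_zero]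
  by_cases hne : c₁ = 0 ∧ e₁ = 0
  · obtain ⟨rfl, rfl⟩ := hne
    refine ⟨RatFunc (RatFunc k), inferInstance, inferInstance, inferInstance, inferInstance,
      RatFunc.X, algebraMap _ _ c₀ * RatFunc.X + algebraMap _ _ e₀, ?_, Wild.transX, ?_,
      ⟨Wild.e2 k⟩⟩
    · simp only [map_add, map_mul, map_pow, map_zero]
      linear_combination ((algebraMap (RatFunc k) (RatFunc (RatFunc k)) c₀ * RatFunc.X) ^ 2 +
        (algebraMap (RatFunc k) (RatFunc (RatFunc k)) e₀) ^ 2 +
        algebraMap (RatFunc k) (RatFunc (RatFunc k)) c₀ * RatFunc.X *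
          algebraMap (RatFunc k) (RatFunc (RatFunc k)) e₀) * h2L
    · rw [eq_top_iff, ← RatFunc.adjoin_X, IntermediateField.adjoin_le_iff]
      rintro _ rfl
      exact IntermediateField.subset_adjoin _ _ (by simp)
  · obtain ⟨V, hV1, hV2⟩ := @Wild.wild_core (RatFunc k) (RatFunc (RatFunc k)) _ _ (Wild.algW k)
      h2L RatFunc.X (Wild.std k RatFunc.X) RatFunc.X Wild.sqW Wild.transW Wild.genW
      c₀ c₁ e₀ e₁ hne
    exact ⟨RatFunc (RatFunc k), inferInstance, inferInstance, Wild.algW k, Wild.towW, RatFunc.X,
      V, hV1, Wild.transW, hV2, ⟨Wild.e2 k⟩⟩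

end Pool.Agent.Helper97.CB
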