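import Pool.Agent.Helper97.CB.DefsW
import Pool.Agent.Helper97.CB.WildPar
import Pool.Agent.Helper97.CB.Lift

/-!
# The rational surface over a rational curve in the base of a wild conic bundle
-/

set_option autoImplicit false

namespace Pool.Agent.Helper97.CB

open MvPolynomial Pool.Agent.Helper97.GM Pool.Agent.Helper97.RU

universe u

variable {k : Type u} [Field k] {σ : Type} [Fintype σ]

private theorem aeval_memW {L : Type*} [Field L] [Algebra k L] (A : IntermediateField k L) {τ : Type*}
    (z : τ → L) (hz : ∀ j, z j ∈ A) (f : MvPolynomial τ k) : aeval z f ∈ A := by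
  have h : (aeval z : MvPolynomial τ k →ₐ[k] L) = A.val.comp (aeval fun j => (⟨z j, hz j⟩ : A)) := by
    apply MvPolynomial.algHom_ext
    intro j
    simp
  rw [h]
  exact SetLike.coe_mem _

private theorem form_eqW {τ : Type} [Fintype τ] {L : Type*} [Field L] [Algebra k L] {y : τ → L}
    {i : τ} (hi : y i ≠ 0) {f : MvPolynomial τ k} {m : ℕ} (hf : f.IsHomogeneous m) :
    aeval y f = y i ^ m * aeval (fun j => y j / y i) f := by
  rw [← aeval_smul_form (y i) (fun j => y j / y i) hf]
  have e : (fun j => y i * (y j / y i)) = y := funext fun j => mul_div_cancel₀ _ hi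
  rw [e]

private theorem ratio_memW {L : Type*} [Field L] [Algebra k L] {y : σ → L} {i : σ} (hi : y i ≠ 0)
    {f g : MvPolynomial σ k} {m : ℕ} (hf : f.IsHomogeneous m) (hg : g.IsHomogeneous m) :
    aeval y f / aeval y g ∈ IntermediateField.adjoin k (Set.range fun j => y j / y i) := by
  rw [form_eqW hi hf, form_eqW hi hg, mul_div_mul_left _ _ (pow_ne_zero _ hi)]
  have h1 : ∀ j, y j / y i ∈ IntermediateField.adjoin k (Set.range fun j => y j / y i) :=
    fun j => IntermediateField.subset_adjoin _ _ ⟨j, rfl⟩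
  exact div_mem (aeval_memW _ _ h1 f) (aeval_memW _ _ h1 g)

theorem liftW [IsAlgClosed k] (h2 : (2 : k) = 0) {I : Ideal (MvPolynomial σ k)} {M d d' δ : ℕ}
    {φ : Idx σ M → MvPolynomial σ k} {τ₀ τ₁ τ₂ : MvPolynomial σ k} {D : MvPolynomial (Idx σ M) k}
    (hφ : ∀ l, (φ l).IsHomogeneous d) (hτ₀ : τ₀.IsHomogeneous d') (hτ₁ : τ₁.IsHomogeneous d')
    (hτ₂ : τ₂.IsHomogeneous d') (hD : D.IsHomogeneous δ)
    (hK : ∀ (K : Type u) [Field K] [Algebra k K] (b : Idx σ M → K), InB I φ b → aeval b D ≠ 0 →
      WildAt I φ τ₀ τ₁ τ₂ b)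
    {b : Idx σ M → Polynomial k} (hb : InB I φ b) (hbD : aeval b D ≠ 0) (hbc : ¬ Const b) :
    HasSurface I := by
  classical
  obtain ⟨b', l0, hb1, hgen, hform⟩ := luroth_gen (τ := Idx σ M) hbc
  have hin : InB I φ b' := by
    intro g m hg hgI
    exact (hform g m hg).2 (hb g m hg hgI)
  have hD' : aeval b' D ≠ 0 := fun h => hbD ((hform D δ hD).1 h)
  obtain ⟨h5, h0, h1, h3, hL⟩ := hK (RatFunc k) b' hin hD'
  set c5 := b' (Sum.inr 5) with hc5
  obtain ⟨L, _, _, _, _, U, V, hUV, hU, hUVtop, ⟨e⟩⟩ :=
    wild_par h2 (b' (Sum.inr 2) / c5) (b' (Sum.inr 4) / c5)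
  have hQ : Q2 b' U V = 0 := by
    have hmap : ∀ r : RatFunc k, algebraMap (RatFunc k) L (c5 * (r / c5)) =
        algebraMap (RatFunc k) L r := by
      intro r
      rw [mul_div_cancel₀ _ h5]
    have h6 : Q2 b' U V = algebraMap (RatFunc k) L c5 *
        (V ^ 2 + algebraMap (RatFunc k) L (b' (Sum.inr 2) / c5) * U ^ 2 +
        algebraMap (RatFunc k) L (b' (Sum.inr 4) / c5)) := by
      unfold Q2
      rw [h0, h1, h3, ← hmap (b' (Sum.inr 2)), ← hmap (b' (Sum.inr 4))]
      simp only [map_mul, map_zero, ← hc5]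
      ring
    rw [h6, hUV, mul_zero]
  obtain ⟨r1, r2, r2', r3, r4, l1, r5⟩ := hL L U V hU hQ
  set Ψ : σ → L := Psi2 b' U V with hΨ
  have hea : ∀ f : MvPolynomial σ k, e (aeval Ψ f) = aeval (fun j => e (Ψ j)) f := by
    intro f
    have h : (e : L →ₐ[k] FractionRing (MvPolynomial (Fin 2) k)).comp (aeval Ψ) =
        aeval (fun j => e (Ψ j)) := by
      apply MvPolynomial.algHom_ext
      intro j
      simp
    exact DFunLike.congr_fun h f
  -- the surface
  refine ⟨fun j => e (Ψ j), ?_, ?_⟩
  · intro f hf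
    rw [← hea, r1 f hf, map_zero]
  · have hi : ∃ i, Ψ i ≠ 0 := by
      by_contra hcon
      push Not at hcon
      have hz : Ψ = 0 := funext hcon
      rw [hz] at r2 r3
      have h1 : ∀ f : MvPolynomial σ k, (aeval (0 : σ → L) f) =
          algebraMap (RatFunc k) L (algebraMap k (RatFunc k) (constantCoeff f)) := by
        intro f
        rw [MvPolynomial.aeval_zero, ← IsScalarTower.algebraMap_apply]
      rw [h1, h1] at r2
      rw [h1] at r3
      apply hU
      have h2 : U = algebraMap (RatFunc k) L
          (algebraMap k (RatFunc k) (constantCoeff τ₁) / algebraMap k (RatFunc k) (constantCoeff τ₀)) := by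
        rw [map_div₀, eq_div_iff r3]
        exact r2.symm
      rw [h2]
      exact isAlgebraic_algebraMap _
    obtain ⟨i, hi⟩ := hi
    have hinj : Function.Injective e := e.injective
    have hyi : e (Ψ i) ≠ 0 := fun h => hi (hinj (by rw [h, map_zero]))
    refine ⟨i, hyi, ?_⟩
    set y : σ → FractionRing (MvPolynomial (Fin 2) k) := fun j => e (Ψ j) with hy
    set A := IntermediateField.adjoin k (Set.range fun j => y j / y i) with hA
    have hye : ∀ f : MvPolynomial σ k, e (aeval Ψ f) = aeval y f := hea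
    have hτ0 : aeval y τ₀ ≠ 0 := by
      rw [← hye]
      exact fun h => r3 (hinj (by rw [h, map_zero]))
    have hUA : e U ∈ A := by
      have h1 := congrArg e r2
      rw [map_mul, hye, hye, ← div_eq_iff hτ0] at h1
      rw [← h1]
      exact ratio_memW hyi hτ₁ hτ₀
    have hVA : e V ∈ A := by
      have h1 := congrArg e r2'
      rw [map_mul, hye, hye, ← div_eq_iff hτ0] at h1
      rw [← h1]
      exact ratio_memW hyi hτ₂ hτ₀
    -- the field `k(t)`
    have hrel : ∀ l l', aeval y (φ l) * e (algebraMap (RatFunc k) L (b' l')) =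
        aeval y (φ l') * e (algebraMap (RatFunc k) L (b' l)) := by
      intro l l'
      have h1 := congrArg e (r4 l l')
      rw [map_mul, map_mul, hye, hye] at h1
      exact h1
    have hl1 : aeval y (φ l1) ≠ 0 := by
      rw [← hye]
      exact fun h => r5 (hinj (by rw [h, map_zero]))
    have hl2 : aeval y (φ l0) ≠ 0 := by
      intro h
      have h1 := hrel l1 l0
      rw [h, zero_mul, hb1, map_one, map_one, mul_one] at h1
      exact hl1 h1
    have hbA : ∀ l, e (algebraMap (RatFunc k) L (b' l)) ∈ A := by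
      intro l
      have h1 := hrel l0 l
      rw [hb1, map_one, map_one, mul_one] at h1
      have h2 : e (algebraMap (RatFunc k) L (b' l)) = aeval y (φ l) / aeval y (φ l0) := by
        rw [eq_div_iff hl2, mul_comm]
        exact h1
      rw [h2]
      exact ratio_memW hyi (hφ l) (hφ l0)
    have hall : ∀ r : RatFunc k, e (algebraMap (RatFunc k) L r) ∈ A := by
      intro r
      let ι : RatFunc k →ₐ[k] FractionRing (MvPolynomial (Fin 2) k) :=
        (e : L →ₐ[k] FractionRing (MvPolynomial (Fin 2) k)).comp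
          (IsScalarTower.toAlgHom k (RatFunc k) L)
      have h1 : IntermediateField.adjoin k (Set.range b') ≤ A.comap ι := by
        rw [IntermediateField.adjoin_le_iff]
        rintro _ ⟨l, rfl⟩
        exact hbA l
      rw [hgen] at h1
      exact h1 (IntermediateField.mem_top (x := r))
    have hevery : ∀ w : L, e w ∈ A := by
      intro w
      have hw : w ∈ IntermediateField.adjoin (RatFunc k) {U, V} := by
        rw [hUVtop]
        exact IntermediateField.mem_top
      refine IntermediateField.adjoin_induction (RatFunc k) (s := {U, V})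
        (p := fun x _ => e x ∈ A) ?_ ?_ ?_ ?_ ?_ hw
      · rintro x (rfl | rfl)
        · exact hUA
        · exact hVA
      · intro r
        exact hall r
      · intro x y _ _ h1 h2
        rw [map_add]
        exact add_mem h1 h2
      · intro x _ h1
        rw [map_inv₀]
        exact inv_mem h1
      · intro x y _ _ h1 h2
        rw [map_mul]
        exact mul_mem h1 h2
    rw [eq_top_iff]
    intro w _
    obtain ⟨x, rfl⟩ := e.surjective w
    exact hevery x

end Pool.Agent.Helper97.CB
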