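import Pool.Agent.Helper97.RU.Defs

/-!
# Conic bundles: definitions
-/

set_option autoImplicit false

namespace Pool.Agent.Helper97.CB

open MvPolynomial Pool.Agent.Helper97.GM Pool.Agent.Helper97.RU

universe u

variable {k : Type u} [Field k] {σ : Type} [Fintype σ]

/-- `X` has a dominant rational map to a variety of positive dimension (with function field `E`) whose
generic fibre is the smooth conic `v² + (a u + b) v + c u² + d u + e = 0`, with function field `F`;
`y` is the generic point of `X` in terms of this fibration. -/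
def IsConicBundle (I : Ideal (MvPolynomial σ k)) : Prop :=
  ∃ (E F : Type u) (_ : Field E) (_ : Field F) (_ : Algebra k E) (_ : Algebra k F)
    (_ : Algebra E F) (_ : IsScalarTower k E F) (a b c d e : E) (u v : F) (y : σ → F),
    (∃ t : E, Transcendental k t) ∧
    4 * c * e + a * b * d - c * b ^ 2 - d ^ 2 - e * a ^ 2 ≠ 0 ∧
    Transcendental E u ∧
    v ^ 2 + (algebraMap E F a * u + algebraMap E F b) * v + algebraMap E F c * u ^ 2 +
      algebraMap E F d * u + algebraMap E F e = 0 ∧
    IntermediateField.adjoin E {u, v} = ⊤ ∧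
    (∀ (f : MvPolynomial σ k) (m : ℕ), f.IsHomogeneous m → (f ∈ I ↔ aeval y f = 0)) ∧
    ∃ i, y i ≠ 0 ∧ IntermediateField.adjoin k (Set.range fun j => y j / y i) = ⊤

/-- The indices of the coefficients of the `y_j` (a polynomial in `u` of degree `< M` plus `v` times
such a polynomial) and of the conic. -/
abbrev Idx (σ : Type) (M : ℕ) : Type := (σ × Fin 2 × Fin M) ⊕ Fin 6

/-- The points of the curves of the family with coefficients `b`. -/
noncomputable def Psi2 {M : ℕ} {A L : Type*} [CommRing A] [CommRing L] [Algebra A L]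
    (b : Idx σ M → A) (U V : L) : σ → L :=
  fun j => ∑ s : Fin 2, ∑ m : Fin M,
    algebraMap A L (b (Sum.inl (j, s, m))) * U ^ (m : ℕ) * V ^ (s : ℕ)

/-- The conic with coefficients `b`. -/
noncomputable def Q2 {M : ℕ} {A L : Type*} [CommRing A] [CommRing L] [Algebra A L]
    (b : Idx σ M → A) (U V : L) : L :=
  algebraMap A L (b (Sum.inr 5)) * V ^ 2 +
    (algebraMap A L (b (Sum.inr 0)) * U + algebraMap A L (b (Sum.inr 1))) * V +
    algebraMap A L (b (Sum.inr 2)) * U ^ 2 + algebraMap A L (b (Sum.inr 3)) * U +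
    algebraMap A L (b (Sum.inr 4))

/-- Its discriminant. -/
def disc2 {M : ℕ} {A : Type*} [CommRing A] (b : Idx σ M → A) : A :=
  4 * b (Sum.inr 2) * b (Sum.inr 4) * b (Sum.inr 5) +
    b (Sum.inr 0) * b (Sum.inr 1) * b (Sum.inr 3) - b (Sum.inr 2) * b (Sum.inr 1) ^ 2 -
    b (Sum.inr 5) * b (Sum.inr 3) ^ 2 - b (Sum.inr 4) * b (Sum.inr 0) ^ 2

/-- The conics of the fibration over the point `b` of the base in terms of a rational map `φ` on `X`
and coordinates `τ₁ / τ₀`, `τ₂ / τ₀` on the conics. -/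
def ConicAt (I : Ideal (MvPolynomial σ k)) {M : ℕ} (φ : Idx σ M → MvPolynomial σ k)
    (τ₀ τ₁ τ₂ : MvPolynomial σ k) {K : Type u} [Field K] [Algebra k K] (b : Idx σ M → K) : Prop :=
  b (Sum.inr 5) ≠ 0 ∧ disc2 b ≠ 0 ∧
    ∀ (L : Type u) [Field L] [Algebra k L] [Algebra K L] [IsScalarTower k K L] (U V : L),
      Transcendental K U → Q2 b U V = 0 →
      On I (Psi2 b U V) ∧ aeval (Psi2 b U V) τ₁ = U * aeval (Psi2 b U V) τ₀ ∧
      aeval (Psi2 b U V) τ₂ = V * aeval (Psi2 b U V) τ₀ ∧ aeval (Psi2 b U V) τ₀ ≠ 0 ∧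
      (∀ l l', aeval (Psi2 b U V) (φ l) * algebraMap K L (b l') =
        aeval (Psi2 b U V) (φ l') * algebraMap K L (b l)) ∧
      ∃ l, aeval (Psi2 b U V) (φ l) ≠ 0

/-- `b` is a specialisation of `ε`: all polynomial relations of `ε` hold for `b`. -/
def Spe {ι : Type*} {E K : Type*} [Field E] [Algebra k E] [Field K] [Algebra k K]
    (ε : ι → E) (b : ι → K) : Prop :=
  ∀ g : MvPolynomial ι k, aeval ε g = 0 → aeval b g = 0

end Pool.Agent.Helper97.CB
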