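import Pool.Agent.Helper97.CB.Defs

/-!
# Specialisation of the generic point of a conic bundle
-/

set_option autoImplicit false

namespace Pool.Agent.Helper97.CB

open MvPolynomial Pool.Agent.Helper97.GM Pool.Agent.Helper97.RU

universe u

variable {k : Type u} [Field k] {σ : Type} [Fintype σ]

theorem quad_coeff {E : Type*} [Field E] {A B D : E}
    (h : Polynomial.C A * Polynomial.X ^ 2 + Polynomial.C B * Polynomial.X + Polynomial.C D = 0) :
    A = 0 ∧ B = 0 ∧ D = 0 := by
  refine ⟨?_, ?_, ?_⟩
  · have := congrArg (fun q => Polynomial.coeff q 2) h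
    simpa [Polynomial.coeff_X, Polynomial.coeff_C] using this
  · have := congrArg (fun q => Polynomial.coeff q 1) h
    simpa [Polynomial.coeff_X, Polynomial.coeff_C, Polynomial.coeff_X_pow] using this
  · have := congrArg (fun q => Polynomial.coeff q 0) h
    simpa [Polynomial.coeff_X, Polynomial.coeff_C, Polynomial.coeff_X_pow] using this

theorem frac_quad {𝔽 : Type*} [Field 𝔽] {x y L M : 𝔽} (hy : y ≠ 0)
    (h : x ^ 2 - x * y * L + y ^ 2 * M = 0) : (-x / y) ^ 2 + L * (-x / y) + M = 0 := by
  field_simp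
  linear_combination h

/-- A monic quadratic polynomial over `E[X]` of nonzero discriminant has no root in `E[X]`. -/
theorem quad_no_root {E : Type*} [Field E] {a b c d e : E}
    (hd : 4 * c * e + a * b * d - c * b ^ 2 - d ^ 2 - e * a ^ 2 ≠ 0) (p : Polynomial E)
    (h : p ^ 2 + (Polynomial.C a * Polynomial.X + Polynomial.C b) * p +
      (Polynomial.C c * Polynomial.X ^ 2 + Polynomial.C d * Polynomial.X + Polynomial.C e) = 0) :
    False := by
  have hdeg : p.natDegree ≤ 1 := by
    by_contra hn
    push Not at hn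
    have e1 : (p ^ 2).natDegree = 2 * p.natDegree := Polynomial.natDegree_pow p 2
    have e2 : p ^ 2 = -((Polynomial.C a * Polynomial.X + Polynomial.C b) * p +
      (Polynomial.C c * Polynomial.X ^ 2 + Polynomial.C d * Polynomial.X + Polynomial.C e)) := by
      linear_combination h
    have e3 : ((Polynomial.C a * Polynomial.X + Polynomial.C b) * p).natDegree ≤ p.natDegree + 1 := by
      refine Polynomial.natDegree_mul_le.trans ?_
      have := Polynomial.natDegree_linear_le (a := a) (b := b)
      omega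
    have e4 : (Polynomial.C c * Polynomial.X ^ 2 + Polynomial.C d * Polynomial.X +
      Polynomial.C e).natDegree ≤ 2 := Polynomial.natDegree_quadratic_le
    have e5 : (p ^ 2).natDegree ≤ p.natDegree + 1 := by
      rw [e2, Polynomial.natDegree_neg]
      exact (Polynomial.natDegree_add_le_of_degree_le e3 (by omega))
    omega
  obtain ⟨s, r, rfl⟩ := Polynomial.exists_eq_X_add_C_of_natDegree_le_one hdeg
  have h' : Polynomial.C (s ^ 2 + a * s + c) * Polynomial.X ^ 2 +
      Polynomial.C (2 * s * r + a * r + b * s + d) * Polynomial.X +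
      Polynomial.C (r ^ 2 + b * r + e) = 0 := by
    rw [← h]
    simp only [map_add, map_mul, map_pow, map_ofNat]
    ring
  obtain ⟨c2, c1, c0⟩ := quad_coeff h'
  have hc : c = -(s ^ 2 + a * s) := by linear_combination c2
  have hd' : d = -(2 * s * r + a * r + b * s) := by linear_combination c1
  have he : e = -(r ^ 2 + b * r) := by linear_combination c0
  apply hd
  rw [hc, hd', he]
  ring

/-- The norm form of the conic has no nontrivial zero over `E[X]`. -/
theorem norm_ne {E : Type*} [Field E] {a b c d e : E}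
    (hd : 4 * c * e + a * b * d - c * b ^ 2 - d ^ 2 - e * a ^ 2 ≠ 0) (h0 h1 : Polynomial E)
    (h : h0 ^ 2 - h0 * h1 * (Polynomial.C a * Polynomial.X + Polynomial.C b) + h1 ^ 2 *
      (Polynomial.C c * Polynomial.X ^ 2 + Polynomial.C d * Polynomial.X + Polynomial.C e) = 0) :
    h0 = 0 ∧ h1 = 0 := by
  have hh1 : h1 = 0 := by
    by_contra hne
    set Lp : Polynomial E := Polynomial.C a * Polynomial.X + Polynomial.C b with hLp
    set Mp : Polynomial E :=
      Polynomial.C c * Polynomial.X ^ 2 + Polynomial.C d * Polynomial.X + Polynomial.C e with hMp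
    let 𝔽 := FractionRing (Polynomial E)
    let ι : Polynomial E →+* 𝔽 := algebraMap (Polynomial E) 𝔽
    have hinj : Function.Injective ι := IsFractionRing.injective (Polynomial E) 𝔽
    have h1' : ι h1 ≠ 0 := by
      rw [Ne, map_eq_zero_iff ι hinj]
      exact hne
    let w : 𝔽 := -(ι h0) / ι h1
    have hw : w ^ 2 + ι Lp * w + ι Mp = 0 := by
      have e1 : ι h0 ^ 2 - ι h0 * ι h1 * ι Lp + ι h1 ^ 2 * ι Mp = 0 := by
        have := congrArg ι h
        simpa only [map_add, map_sub, map_mul, map_pow, map_zero] using this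
      exact frac_quad h1' e1
    have hint : IsIntegral (Polynomial E) w := by
      refine ⟨Polynomial.X ^ 2 + (Polynomial.C Lp * Polynomial.X + Polynomial.C Mp), ?_, ?_⟩
      · apply Polynomial.monic_X_pow_add
        exact lt_of_le_of_lt Polynomial.degree_linear_le (by norm_num)
      · simp only [Polynomial.eval₂_add, Polynomial.eval₂_mul, Polynomial.eval₂_pow,
          Polynomial.eval₂_X, Polynomial.eval₂_C]
        linear_combination hw
    obtain ⟨p, hp⟩ := IsIntegrallyClosed.isIntegral_iff.1 hint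
    have hp' : ι p = w := hp
    have e3 : ι (p ^ 2 + Lp * p + Mp) = 0 := by
      rw [map_add, map_add, map_pow, map_mul, hp']
      exact hw
    have e4 : p ^ 2 + Lp * p + Mp = 0 := by
      apply hinj
      rw [e3, map_zero]
    exact quad_no_root hd p e4
  refine ⟨?_, hh1⟩
  rw [hh1] at h
  have : h0 ^ 2 = 0 := by linear_combination h
  exact pow_eq_zero_iff (two_ne_zero) |>.1 this

/-- `1` and `v` are linearly independent over `E(u)`. -/
theorem lin_indep {E F : Type*} [Field E] [Field F] [Algebra E F] {a b c d e : E}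
    (hd : 4 * c * e + a * b * d - c * b ^ 2 - d ^ 2 - e * a ^ 2 ≠ 0) {u v : F}
    (hu : Transcendental E u)
    (hq : v ^ 2 + (algebraMap E F a * u + algebraMap E F b) * v + (algebraMap E F c * u ^ 2 +
      algebraMap E F d * u + algebraMap E F e) = 0) (h0 h1 : Polynomial E)
    (h : Polynomial.aeval u h0 + Polynomial.aeval u h1 * v = 0) : h0 = 0 ∧ h1 = 0 := by
  apply norm_ne hd h0 h1
  have hinj := transcendental_iff_injective.1 hu
  apply hinj
  simp only [map_add, map_sub, map_mul, map_pow, map_zero, Polynomial.aeval_C, Polynomial.aeval_X]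
  have h0' : Polynomial.aeval u h0 = -(Polynomial.aeval u h1 * v) := by linear_combination h
  rw [h0']
  linear_combination (Polynomial.aeval u h1) ^ 2 * hq

omit [Fintype σ] in
/-- Reduction of `P` modulo the conic. -/
theorem reduce {M : ℕ} (P : MvPolynomial (Idx σ M ⊕ Fin 2) k) :
    ∃ H0 H1 : Polynomial (MvPolynomial (Idx σ M) k),
      ∀ (A L : Type u) [Field A] [Field L] [Algebra k A] [Algebra k L] [Algebra A L]
        [IsScalarTower k A L] (b : Idx σ M → A) (U V : L), b (Sum.inr 5) = 1 → Q2 b U V = 0 →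
        aeval (Sum.elim (fun l => algebraMap A L (b l)) ![U, V]) P =
          Polynomial.aeval U (H0.map (aeval b : MvPolynomial (Idx σ M) k →ₐ[k] A).toRingHom) +
          Polynomial.aeval U (H1.map (aeval b : MvPolynomial (Idx σ M) k →ₐ[k] A).toRingHom) * V := by
  classical
  let Y : Fin 6 → Polynomial (MvPolynomial (Idx σ M) k) := fun i => Polynomial.C (X (Sum.inr i))
  let Lg : Polynomial (MvPolynomial (Idx σ M) k) := Y 0 * Polynomial.X + Y 1
  let Mg : Polynomial (MvPolynomial (Idx σ M) k) := Y 2 * Polynomial.X ^ 2 + Y 3 * Polynomial.X + Y 4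
  let G : Polynomial (Polynomial (MvPolynomial (Idx σ M) k)) :=
    Polynomial.X ^ 2 + (Polynomial.C Lg * Polynomial.X + Polynomial.C Mg)
  have hG : G.Monic := by
    apply Polynomial.monic_X_pow_add
    exact lt_of_le_of_lt Polynomial.degree_linear_le (by norm_num)
  have hGdeg : G.degree = 2 := by
    have e1 : (Polynomial.C Lg * Polynomial.X + Polynomial.C Mg).degree <
        (Polynomial.X ^ 2 : Polynomial (Polynomial (MvPolynomial (Idx σ M) k))).degree := by
      rw [Polynomial.degree_X_pow]
      exact lt_of_le_of_lt Polynomial.degree_linear_le (by norm_num)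
    show (Polynomial.X ^ 2 + (Polynomial.C Lg * Polynomial.X + Polynomial.C Mg)).degree = 2
    rw [Polynomial.degree_add_eq_left_of_degree_lt e1, Polynomial.degree_X_pow]
    rfl
  let Phat : Polynomial (Polynomial (MvPolynomial (Idx σ M) k)) :=
    aeval (Sum.elim (fun l => Polynomial.C (Polynomial.C (X l))) ![Polynomial.C Polynomial.X, Polynomial.X]) P
  let Rm := Phat %ₘ G
  have hRm : Rm.degree ≤ 1 := by
    have e1 : Rm.degree < G.degree := Polynomial.degree_modByMonic_lt _ hG
    rw [hGdeg] at e1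
    rw [Polynomial.degree_le_iff_coeff_zero]
    intro m hm
    apply Polynomial.coeff_eq_zero_of_degree_lt
    refine lt_of_lt_of_le e1 ?_
    have h1m : 1 < m := by exact_mod_cast hm
    exact_mod_cast (by omega : 2 ≤ m)
  have hRm' : Rm = Polynomial.C (Rm.coeff 1) * Polynomial.X + Polynomial.C (Rm.coeff 0) :=
    Polynomial.eq_X_add_C_of_degree_le_one hRm
  refine ⟨Rm.coeff 0, Rm.coeff 1, ?_⟩
  intro A L _ _ _ _ _ _ b U V hb5 hQ
  let f0 : MvPolynomial (Idx σ M) k →+* L :=
    (algebraMap A L).comp (aeval b : MvPolynomial (Idx σ M) k →ₐ[k] A).toRingHom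
  let f1 : Polynomial (MvPolynomial (Idx σ M) k) →+* L := Polynomial.eval₂RingHom f0 U
  let ev : Polynomial (Polynomial (MvPolynomial (Idx σ M) k)) →+* L := Polynomial.eval₂RingHom f1 V
  have hf1 : ∀ H : Polynomial (MvPolynomial (Idx σ M) k),
      Polynomial.aeval U (H.map (aeval b : MvPolynomial (Idx σ M) k →ₐ[k] A).toRingHom) = f1 H := by
    intro H
    show Polynomial.aeval U (H.map (aeval b : MvPolynomial (Idx σ M) k →ₐ[k] A).toRingHom) =
      Polynomial.eval₂ f0 U H
    rw [Polynomial.aeval_def, Polynomial.eval₂_map]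
  have hevC : ∀ H : Polynomial (MvPolynomial (Idx σ M) k), ev (Polynomial.C H) = f1 H := by
    intro H
    show Polynomial.eval₂ f1 V (Polynomial.C H) = f1 H
    rw [Polynomial.eval₂_C]
  have hevX : ev Polynomial.X = V := by
    show Polynomial.eval₂ f1 V Polynomial.X = V
    rw [Polynomial.eval₂_X]
  have hf1C : ∀ g : MvPolynomial (Idx σ M) k, f1 (Polynomial.C g) = algebraMap A L (aeval b g) := by
    intro g
    show Polynomial.eval₂ f0 U (Polynomial.C g) = _
    rw [Polynomial.eval₂_C]
    rfl
  have hf1X : f1 Polynomial.X = U := by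
    show Polynomial.eval₂ f0 U Polynomial.X = U
    rw [Polynomial.eval₂_X]
  have hY : ∀ i, f1 (Y i) = algebraMap A L (b (Sum.inr i)) := by
    intro i
    show f1 (Polynomial.C (X (Sum.inr i))) = _
    rw [hf1C, aeval_X]
  have hevG : ev G = 0 := by
    have e1 : ev G = V ^ 2 + ((f1 (Y 0) * U + f1 (Y 1)) * V +
        (f1 (Y 2) * U ^ 2 + f1 (Y 3) * U + f1 (Y 4))) := by
      show ev (Polynomial.X ^ 2 + (Polynomial.C Lg * Polynomial.X + Polynomial.C Mg)) = _
      rw [map_add, map_add, map_mul, map_pow, hevC, hevC, hevX]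
      show V ^ 2 + (f1 (Y 0 * Polynomial.X + Y 1) * V +
        f1 (Y 2 * Polynomial.X ^ 2 + Y 3 * Polynomial.X + Y 4)) = _
      simp only [map_add, map_mul, map_pow, hf1X]
    rw [e1, hY, hY, hY, hY, hY]
    unfold Q2 at hQ
    rw [hb5, map_one] at hQ
    linear_combination hQ
  have hevP : ev Phat = aeval (Sum.elim (fun l => algebraMap A L (b l)) ![U, V]) P := by
    have e1 : (ev.comp (aeval (Sum.elim (fun l => Polynomial.C (Polynomial.C (X l)))
        ![Polynomial.C Polynomial.X, Polynomial.X]) :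
          MvPolynomial (Idx σ M ⊕ Fin 2) k →ₐ[k] Polynomial (Polynomial (MvPolynomial (Idx σ M) k))).toRingHom) =
        (aeval (Sum.elim (fun l => algebraMap A L (b l)) ![U, V]) :
          MvPolynomial (Idx σ M ⊕ Fin 2) k →ₐ[k] L).toRingHom := by
      apply MvPolynomial.ringHom_ext
      · intro r
        show ev (aeval _ (C r)) = aeval _ (C r)
        rw [aeval_C, aeval_C]
        have e2 : algebraMap k (Polynomial (Polynomial (MvPolynomial (Idx σ M) k))) r =
            Polynomial.C (Polynomial.C (C r)) := rfl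
        rw [e2, hevC, hf1C, aeval_C, ← IsScalarTower.algebraMap_apply]
      · intro i
        show ev (aeval _ (X i)) = aeval _ (X i)
        rw [aeval_X, aeval_X]
        rcases i with l | j
        · show ev (Polynomial.C (Polynomial.C (X l))) = algebraMap A L (b l)
          rw [hevC, hf1C, aeval_X]
        · fin_cases j
          · show ev (Polynomial.C Polynomial.X) = U
            rw [hevC, hf1X]
          · show ev Polynomial.X = V
            exact hevX
    exact congrArg (fun f : MvPolynomial (Idx σ M ⊕ Fin 2) k →+* L => f P) e1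
  have hdiv : Rm + G * (Phat /ₘ G) = Phat := Polynomial.modByMonic_add_div _ _
  rw [← hevP, ← hdiv, map_add, map_mul, hevG, zero_mul, add_zero]
  conv_lhs => rw [hRm']
  rw [map_add, map_mul, hevC, hevC, hevX, hf1, hf1]
  ring

omit [Fintype σ] in
/-- A specialisation has last coordinate `1` if the generic point has. -/
theorem spe_one {E K : Type*} [Field E] [Algebra k E] [Field K] [Algebra k K] {M : ℕ}
    {ε : Idx σ M → E} (h5 : ε (Sum.inr 5) = 1) {b : Idx σ M → K} (hb : Spe (k := k) ε b) :
    b (Sum.inr 5) = 1 := by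
  have := hb (X (Sum.inr 5) - 1) (by rw [map_sub, aeval_X, map_one, h5, sub_self])
  rw [map_sub, aeval_X, map_one] at this
  exact sub_eq_zero.1 this

omit [Fintype σ] in
theorem spe_map {E K : Type*} [Field E] [Algebra k E] [Field K] [Algebra k K] {M : ℕ}
    {ε : Idx σ M → E} {b : Idx σ M → K} (hb : Spe (k := k) ε b)
    (H : Polynomial (MvPolynomial (Idx σ M) k))
    (h : H.map (aeval ε : MvPolynomial (Idx σ M) k →ₐ[k] E).toRingHom = 0) :
    H.map (aeval b : MvPolynomial (Idx σ M) k →ₐ[k] K).toRingHom = 0 := by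
  ext n
  rw [Polynomial.coeff_map, Polynomial.coeff_zero]
  apply hb
  have := congrArg (fun q => Polynomial.coeff q n) h
  simpa using this

/-- Polynomial relations between the coefficients `ε` and the coordinates `u`, `v` of the generic
point of the generic conic hold at all points of the conics over specialisations `b` of `ε`. -/
theorem spec_zero {E F : Type u} [Field E] [Field F] [Algebra k E] [Algebra k F] [Algebra E F]
    [IsScalarTower k E F] {M : ℕ} {ε : Idx σ M → E} (h5 : ε (Sum.inr 5) = 1) (hd : disc2 ε ≠ 0)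
    {u v : F} (hu : Transcendental E u) (hq : Q2 ε u v = 0)
    {P : MvPolynomial (Idx σ M ⊕ Fin 2) k}
    (hP : aeval (Sum.elim (fun l => algebraMap E F (ε l)) ![u, v]) P = 0)
    {K L : Type u} [Field K] [Field L] [Algebra k K] [Algebra k L] [Algebra K L]
    [IsScalarTower k K L] {b : Idx σ M → K} (hb : Spe (k := k) ε b) {U V : L}
    (hUV : Q2 b U V = 0) :
    aeval (Sum.elim (fun l => algebraMap K L (b l)) ![U, V]) P = 0 := by
  obtain ⟨H0, H1, hH⟩ := reduce (σ := σ) P
  have e1 := hH E F ε u v h5 hq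
  rw [hP] at e1
  have hd' : 4 * ε (Sum.inr 2) * ε (Sum.inr 4) + ε (Sum.inr 0) * ε (Sum.inr 1) * ε (Sum.inr 3) -
      ε (Sum.inr 2) * ε (Sum.inr 1) ^ 2 - ε (Sum.inr 3) ^ 2 - ε (Sum.inr 4) * ε (Sum.inr 0) ^ 2 ≠ 0 := by
    unfold disc2 at hd
    rw [h5] at hd
    simpa using hd
  have hq' : v ^ 2 + (algebraMap E F (ε (Sum.inr 0)) * u + algebraMap E F (ε (Sum.inr 1))) * v +
      (algebraMap E F (ε (Sum.inr 2)) * u ^ 2 + algebraMap E F (ε (Sum.inr 3)) * u +
        algebraMap E F (ε (Sum.inr 4))) = 0 := by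
    unfold Q2 at hq
    rw [h5, map_one] at hq
    linear_combination hq
  obtain ⟨z0, z1⟩ := lin_indep hd' hu hq' _ _ e1.symm
  rw [hH K L b U V (spe_one h5 hb) hUV, spe_map hb H0 z0, spe_map hb H1 z1]
  simp

/-- If `P` does not vanish at the generic point, it does not vanish at the generic points of the
conics over the specialisations at which a certain polynomial `g` does not vanish. -/
theorem spec_ne {E F : Type u} [Field E] [Field F] [Algebra k E] [Algebra k F] [Algebra E F]
    [IsScalarTower k E F] {M : ℕ} {ε : Idx σ M → E} (h5 : ε (Sum.inr 5) = 1) (hd : disc2 ε ≠ 0)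
    {u v : F} (hu : Transcendental E u) (hq : Q2 ε u v = 0)
    {P : MvPolynomial (Idx σ M ⊕ Fin 2) k}
    (hP : aeval (Sum.elim (fun l => algebraMap E F (ε l)) ![u, v]) P ≠ 0) :
    ∃ g : MvPolynomial (Idx σ M) k, aeval ε g ≠ 0 ∧
      ∀ (K L : Type u) [Field K] [Field L] [Algebra k K] [Algebra k L] [Algebra K L]
        [IsScalarTower k K L] (b : Idx σ M → K), Spe (k := k) ε b → aeval b g ≠ 0 → ∀ U V : L,
        Transcendental K U → Q2 b U V = 0 →
        aeval (Sum.elim (fun l => algebraMap K L (b l)) ![U, V]) P ≠ 0 := by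
  obtain ⟨H0, H1, hH⟩ := reduce (σ := σ) P
  let Y : Fin 6 → Polynomial (MvPolynomial (Idx σ M) k) := fun i => Polynomial.C (X (Sum.inr i))
  let N : Polynomial (MvPolynomial (Idx σ M) k) := H0 ^ 2 - H0 * H1 * (Y 0 * Polynomial.X + Y 1) +
    H1 ^ 2 * (Y 2 * Polynomial.X ^ 2 + Y 3 * Polynomial.X + Y 4)
  have hN : ∀ (A L : Type u) [Field A] [Field L] [Algebra k A] [Algebra k L] [Algebra A L]
      [IsScalarTower k A L] (b : Idx σ M → A) (U V : L), b (Sum.inr 5) = 1 → Q2 b U V = 0 →
      Polynomial.aeval U (N.map (aeval b : MvPolynomial (Idx σ M) k →ₐ[k] A).toRingHom) =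
        (Polynomial.aeval U (H0.map (aeval b : MvPolynomial (Idx σ M) k →ₐ[k] A).toRingHom) +
          Polynomial.aeval U (H1.map (aeval b : MvPolynomial (Idx σ M) k →ₐ[k] A).toRingHom) * V) *
        (Polynomial.aeval U (H0.map (aeval b : MvPolynomial (Idx σ M) k →ₐ[k] A).toRingHom) -
          Polynomial.aeval U (H1.map (aeval b : MvPolynomial (Idx σ M) k →ₐ[k] A).toRingHom) *
            (algebraMap A L (b (Sum.inr 0)) * U + algebraMap A L (b (Sum.inr 1))) -
          Polynomial.aeval U (H1.map (aeval b : MvPolynomial (Idx σ M) k →ₐ[k] A).toRingHom) * V) := by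
    intro A L _ _ _ _ _ _ b U V hb5 hQ
    have hY : ∀ i, (Y i).map (aeval b : MvPolynomial (Idx σ M) k →ₐ[k] A).toRingHom =
        Polynomial.C (b (Sum.inr i)) := by
      intro i
      show (Polynomial.C (X (Sum.inr i))).map _ = _
      rw [Polynomial.map_C]
      congr 1
      exact aeval_X _ _
    have e1 : N.map (aeval b : MvPolynomial (Idx σ M) k →ₐ[k] A).toRingHom =
        (H0.map (aeval b : MvPolynomial (Idx σ M) k →ₐ[k] A).toRingHom) ^ 2 -
          (H0.map (aeval b : MvPolynomial (Idx σ M) k →ₐ[k] A).toRingHom) *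
          (H1.map (aeval b : MvPolynomial (Idx σ M) k →ₐ[k] A).toRingHom) *
            (Polynomial.C (b (Sum.inr 0)) * Polynomial.X + Polynomial.C (b (Sum.inr 1))) +
          (H1.map (aeval b : MvPolynomial (Idx σ M) k →ₐ[k] A).toRingHom) ^ 2 *
            (Polynomial.C (b (Sum.inr 2)) * Polynomial.X ^ 2 +
              Polynomial.C (b (Sum.inr 3)) * Polynomial.X + Polynomial.C (b (Sum.inr 4))) := by
      show (H0 ^ 2 - H0 * H1 * (Y 0 * Polynomial.X + Y 1) +
        H1 ^ 2 * (Y 2 * Polynomial.X ^ 2 + Y 3 * Polynomial.X + Y 4)).map _ = _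
      simp only [Polynomial.map_add, Polynomial.map_sub, Polynomial.map_mul, Polynomial.map_pow,
        Polynomial.map_X, hY]
    rw [e1]
    simp only [map_add, map_sub, map_mul, map_pow, Polynomial.aeval_C, Polynomial.aeval_X]
    unfold Q2 at hQ
    rw [hb5, map_one] at hQ
    linear_combination (Polynomial.aeval U
      (H1.map (aeval b : MvPolynomial (Idx σ M) k →ₐ[k] A).toRingHom)) ^ 2 * hQ
  have hd' : 4 * ε (Sum.inr 2) * ε (Sum.inr 4) + ε (Sum.inr 0) * ε (Sum.inr 1) * ε (Sum.inr 3) -
      ε (Sum.inr 2) * ε (Sum.inr 1) ^ 2 - ε (Sum.inr 3) ^ 2 - ε (Sum.inr 4) * ε (Sum.inr 0) ^ 2 ≠ 0 := by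
    unfold disc2 at hd
    rw [h5] at hd
    simpa using hd
  have hq' : v ^ 2 + (algebraMap E F (ε (Sum.inr 0)) * u + algebraMap E F (ε (Sum.inr 1))) * v +
      (algebraMap E F (ε (Sum.inr 2)) * u ^ 2 + algebraMap E F (ε (Sum.inr 3)) * u +
        algebraMap E F (ε (Sum.inr 4))) = 0 := by
    unfold Q2 at hq
    rw [h5, map_one] at hq
    linear_combination hq
  have e1 := hH E F ε u v h5 hq
  have hNε : N.map (aeval ε : MvPolynomial (Idx σ M) k →ₐ[k] E).toRingHom ≠ 0 := by
    intro h0
    have e2 := hN E F ε u v h5 hq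
    rw [h0, map_zero, ← e1] at e2
    rcases mul_eq_zero.1 e2.symm with h | h
    · exact hP h
    · set A0 := H0.map (aeval ε : MvPolynomial (Idx σ M) k →ₐ[k] E).toRingHom with hA0
      set A1 := H1.map (aeval ε : MvPolynomial (Idx σ M) k →ₐ[k] E).toRingHom with hA1
      have e3 : Polynomial.aeval u (A0 - A1 * (Polynomial.C (ε (Sum.inr 0)) * Polynomial.X +
          Polynomial.C (ε (Sum.inr 1)))) + Polynomial.aeval u (-A1) * v = 0 := by
        simp only [map_add, map_sub, map_mul, map_neg, Polynomial.aeval_C, Polynomial.aeval_X]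
        linear_combination h
      obtain ⟨z0, z1⟩ := lin_indep hd' hu hq' _ _ e3
      have z1' : A1 = 0 := neg_eq_zero.1 z1
      rw [z1'] at z0
      have z0' : A0 = 0 := by simpa using z0
      apply hP
      rw [e1, z0', z1']
      simp
  obtain ⟨n, hn⟩ : ∃ n, (N.map (aeval ε : MvPolynomial (Idx σ M) k →ₐ[k] E).toRingHom).coeff n ≠ 0 := by
    by_contra hcon
    push Not at hcon
    exact hNε (Polynomial.ext (by simpa using hcon))
  rw [Polynomial.coeff_map] at hn
  refine ⟨N.coeff n, hn, ?_⟩
  intro K L _ _ _ _ _ _ b hb hg U V hU hQ hz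
  have hb5 := spe_one h5 hb
  have e2 := hN K L b U V hb5 hQ
  rw [← hH K L b U V hb5 hQ, hz, zero_mul] at e2
  have e3 : N.map (aeval b : MvPolynomial (Idx σ M) k →ₐ[k] K).toRingHom = 0 := by
    apply (transcendental_iff_injective.1 hU)
    rw [e2, map_zero]
  apply hg
  have := congrArg (fun q => Polynomial.coeff q n) e3
  rw [Polynomial.coeff_map] at this
  simpa using this

end Pool.Agent.Helper97.CB
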